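import Pool.Agent.Q80.EW.Stm2

set_option autoImplicit false

/-! # Project EW: basic facts on the walk and the weights of the coarse blocks (for the jobs EW-G1 and EW-G2) -/

namespace Pool.Agent.Q16.EW

open Filter Topology MeasureTheory Finset
open Pool.Agent.Q80.EW

theorem zc_mono {a b : ℝ} (h : a ≤ b) : zc a ≤ zc b :=
  Nat.ceil_mono (Real.exp_le_exp.2 (Real.exp_le_exp.2 h))

theorem ind_le (a b : ℝ) (p : ℕ) : ind a b p ≤ 1 := by
  unfold ind; split_ifs <;> norm_num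

theorem ind_nonneg (a b : ℝ) (p : ℕ) : 0 ≤ ind a b p := by
  unfold ind; split_ifs <;> norm_num

theorem ind_zero {a b y : ℝ} (h : b ≤ y) {p : ℕ} (hp : zc y ≤ p) : ind a b p = 0 := by
  unfold ind
  rw [if_neg]
  rintro ⟨_, _, h3⟩
  exact absurd (lt_of_lt_of_le h3 (zc_mono h)) (not_lt.2 hp)

theorem pb_sub {a b : ℝ} (h : a ≤ b) : Nat.primesBelow (zc a) ⊆ Nat.primesBelow (zc b) := by
  intro p hp
  rw [Nat.mem_primesBelow] at hp ⊢
  exact ⟨lt_of_lt_of_le hp.1 (zc_mono h), hp.2⟩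

theorem blk {R : Type*} [CommRing R] [Module ℝ R] {a b y : ℝ} (hab : a ≤ b) (hb : b ≤ y) (f : ℕ → R) :
    ∑ p ∈ Nat.primesBelow (zc b), f p - ∑ p ∈ Nat.primesBelow (zc a), f p =
      ∑ p ∈ Nat.primesBelow (zc y), ind a b p • f p := by
  rw [← Finset.sum_sdiff (pb_sub hab), add_sub_cancel_right]
  have h1 : Nat.primesBelow (zc b) \ Nat.primesBelow (zc a) ⊆ Nat.primesBelow (zc y) :=
    sdiff_subset.trans (pb_sub hb)
  rw [← sum_subset h1 (f := fun p => ind a b p • f p)]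
  · apply sum_congr rfl
    intro p hp
    rw [Finset.mem_sdiff, Nat.mem_primesBelow, Nat.mem_primesBelow] at hp
    have : ind a b p = 1 := by
      unfold ind
      rw [if_pos]
      refine ⟨hp.1.2, ?_, hp.1.1⟩
      by_contra hc
      exact hp.2 ⟨not_le.1 hc, hp.1.2⟩
    rw [this, one_smul]
  · intro p hp hn
    rw [Nat.mem_primesBelow] at hp
    have : ind a b p = 0 := by
      unfold ind
      rw [if_neg]
      rintro ⟨h2, h3, h4⟩
      apply hn
      rw [Finset.mem_sdiff, Nat.mem_primesBelow, Nat.mem_primesBelow]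
      exact ⟨⟨h4, h2⟩, fun h5 => absurd h5.1 (not_lt.2 h3)⟩
    rw [this, zero_smul]

theorem VV_mono {a b : ℝ} (h : a ≤ b) : VV a ≤ VV b :=
  sum_le_sum_of_subset_of_nonneg (pb_sub h) fun p _ _ => by positivity

theorem VV_nonneg (a : ℝ) : 0 ≤ VV a := sum_nonneg fun p _ => by positivity

theorem PP_cont (y : ℝ) : Continuous (PP y) := by
  unfold PP
  refine continuous_finsetSum _ fun p hp => ?_
  have hp1 : p ≠ 0 := (Nat.prime_of_mem_primesBelow hp).ne_zero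
  refine Continuous.const_cpow (by fun_prop) (Or.inl (by exact_mod_cast hp1))

theorem PV_cont (Z : ℕ) (v : ℕ → ℝ) : Continuous (PV Z v) := by
  unfold PV
  refine continuous_finsetSum _ fun p hp => ?_
  have hp1 : p ≠ 0 := (Nat.prime_of_mem_primesBelow hp).ne_zero
  refine continuous_const.mul ?_
  refine Continuous.const_cpow (by fun_prop) (Or.inl (by exact_mod_cast hp1))

theorem XX_cont (y : ℝ) : Continuous (XX y) := by
  unfold XX
  exact (Complex.continuous_re.comp (PP_cont y)).sub continuous_const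

theorem De_cont (T : ℝ) (m : ℕ) (i : Fin m) : Continuous (De T m i) := by
  unfold De
  exact ((XX_cont _).sub (XX_cont _)).div_const _

theorem lev_nonneg {T : ℝ} {m : ℕ} (hY : 0 ≤ Yt T) (i : ℕ) : 0 ≤ (i : ℝ) * (Yt T / m) := by positivity

theorem lev_le {T : ℝ} {m : ℕ} (hm : 1 ≤ m) (hY : 0 ≤ Yt T) {i : ℕ} (hi : i ≤ m) : (i : ℝ) * (Yt T / m) ≤ Yt T := by
  have h1 : (i : ℝ) ≤ m := by exact_mod_cast hi
  have h2 : (0 : ℝ) < m := by exact_mod_cast (by omega : 0 < m)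
  rw [← mul_div_assoc, div_le_iff₀ h2, mul_comm]
  exact mul_le_mul_of_nonneg_left h1 hY

theorem lev_le' {T : ℝ} {m : ℕ} (hm : 1 ≤ m) (hY : 0 ≤ Yt T) (i : Fin m) :
    ((i : ℝ) + 1) * (Yt T / m) ≤ Yt T := by
  have := lev_le hm hY (i := i.1 + 1) i.2
  push_cast at this
  exact this

theorem lev_step {T : ℝ} {m : ℕ} (hY : 0 ≤ Yt T) (i : Fin m) :
    (i : ℝ) * (Yt T / m) ≤ ((i : ℝ) + 1) * (Yt T / m) :=
  mul_le_mul_of_nonneg_right (by linarith) (by positivity)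

theorem wu_abs {T : ℝ} {m : ℕ} (u : Fin m → ℝ) (p : ℕ) :
    |wu T m u p| ≤ (∑ i, |u i|) / (2 * Real.sqrt (La T)) := by
  unfold wu
  refine (abs_sum_le_sum_abs _ _).trans ?_
  rw [sum_div]
  apply sum_le_sum
  intro i _
  rw [abs_mul, abs_div, abs_of_nonneg (a := 2 * Real.sqrt (La T)) (by positivity), abs_of_nonneg (ind_nonneg _ _ _)]
  exact mul_le_of_le_one_right (by positivity) (ind_le _ _ _)

theorem wu_zero {T : ℝ} {m : ℕ} (hm : 1 ≤ m) (hY : 0 ≤ Yt T) (u : Fin m → ℝ) {p : ℕ} (hp : zc (Yt T) ≤ p) :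
    wu T m u p = 0 := by
  unfold wu
  apply sum_eq_zero
  intro i _
  rw [ind_zero (lev_le' hm hY i) hp, mul_zero]

/-- the polynomial with the block weights -/
theorem PV_wu {T : ℝ} {m : ℕ} (hm : 1 ≤ m) (hY : 0 ≤ Yt T) (u : Fin m → ℝ) (t : ℝ) :
    PV (zc (Yt T)) (wu T m u) t = ∑ i : Fin m, ((u i / (2 * Real.sqrt (La T)) : ℝ) : ℂ) *
      (PP (((i : ℝ) + 1) * (Yt T / m)) t - PP ((i : ℝ) * (Yt T / m)) t) := by
  have h1 : ∀ i : Fin m, PP (((i : ℝ) + 1) * (Yt T / m)) t - PP ((i : ℝ) * (Yt T / m)) t =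
      ∑ p ∈ Nat.primesBelow (zc (Yt T)), (ind ((i : ℝ) * (Yt T / m)) (((i : ℝ) + 1) * (Yt T / m)) p : ℂ) *
        (p : ℂ) ^ (-((1 / 2 : ℂ) + (t : ℂ) * Complex.I)) := by
    intro i
    unfold PP
    rw [blk (lev_step hY i) (lev_le' hm hY i)]
    apply sum_congr rfl
    intro p _
    rw [Complex.real_smul]
  simp_rw [h1, mul_sum]
  rw [sum_comm]
  unfold PV
  apply sum_congr rfl
  intro p _
  unfold wu
  rw [Complex.ofReal_sum, sum_mul]
  apply sum_congr rfl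
  intro i _
  push_cast
  ring

/-- the exponent of the walk -/
theorem De_sum {T : ℝ} {m : ℕ} (hm : 1 ≤ m) (hY : 0 ≤ Yt T) (u : Fin m → ℝ) (t : ℝ) :
    ∑ i, u i * De T m i t = 2 * (PV (zc (Yt T)) (wu T m u) t).re - vu T m u := by
  rw [PV_wu hm hY, Complex.re_sum, mul_sum]
  unfold vu
  rw [← sum_sub_distrib]
  apply sum_congr rfl
  intro i _
  rw [Complex.re_ofReal_mul, Complex.sub_re]
  unfold De XX
  by_cases h0 : Real.sqrt (La T) = 0
  · rw [h0]; simp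
  · field_simp
    ring

theorem PV_bd {T : ℝ} {m : ℕ} (hm : 1 ≤ m) (hY : 0 ≤ Yt T) (hL : 0 < La T) (u : Fin m → ℝ)
    (hu : ∑ i, |u i| ≤ Real.sqrt (La T)) {t : ℝ} (ht : NE T m t) :
    ‖PV (zc (Yt T)) (wu T m u) t‖ ≤ 40 * La T := by
  rw [PV_wu hm hY]
  refine (norm_sum_le _ _).trans ?_
  have hs : 0 < Real.sqrt (La T) := Real.sqrt_pos.2 hL
  have h1 : ∀ i : Fin m, ‖((u i / (2 * Real.sqrt (La T)) : ℝ) : ℂ) *
      (PP (((i : ℝ) + 1) * (Yt T / m)) t - PP ((i : ℝ) * (Yt T / m)) t)‖ ≤ |u i| * (40 * Real.sqrt (La T)) := by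
    intro i
    rw [norm_mul, Complex.norm_real, Real.norm_eq_abs, abs_div, abs_of_pos (a := 2 * Real.sqrt (La T)) (by positivity)]
    have h2 := ht i.1 i.2.le
    have h3 := ht (i.1 + 1) i.2
    push_cast at h3
    have h4 : ‖PP (((i : ℝ) + 1) * (Yt T / m)) t - PP ((i : ℝ) * (Yt T / m)) t‖ ≤ 80 * La T := by
      refine (norm_sub_le _ _).trans ?_
      linarith
    calc |u i| / (2 * Real.sqrt (La T)) * ‖PP (((i : ℝ) + 1) * (Yt T / m)) t - PP ((i : ℝ) * (Yt T / m)) t‖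
        ≤ |u i| / (2 * Real.sqrt (La T)) * (80 * La T) := by gcongr
      _ = |u i| * (40 * Real.sqrt (La T)) := by
        rw [div_mul_eq_mul_div, div_eq_iff (by positivity)]
        have := Real.mul_self_sqrt hL.le
        linear_combination (-80 * |u i|) * this
  refine (sum_le_sum fun i _ => h1 i).trans ?_
  rw [← sum_mul]
  have := Real.mul_self_sqrt hL.le
  nlinarith

theorem vu_bd {C : ℝ} (hC : ∀ y : ℝ, 0 ≤ y → |VV y - y| ≤ C) {T : ℝ} {m : ℕ} (hm : 1 ≤ m) (hY : 0 ≤ Yt T)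
    (u : Fin m → ℝ) : |vu T m u| ≤ (∑ i, |u i|) * (Yt T + C) / Real.sqrt (La T) := by
  unfold vu
  refine (abs_sum_le_sum_abs _ _).trans ?_
  rw [sum_mul, sum_div]
  apply sum_le_sum
  intro i _
  rw [abs_div, abs_mul, abs_of_nonneg (Real.sqrt_nonneg _)]
  have h1 : |VV (((i : ℝ) + 1) * (Yt T / m)) - VV ((i : ℝ) * (Yt T / m))| ≤ Yt T + C := by
    have h2 := VV_mono (lev_step hY i)
    have h3 := VV_mono (lev_le' hm hY i)
    have h4 := VV_nonneg ((i : ℝ) * (Yt T / m))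
    have h5 := (abs_le.1 (hC _ hY)).2
    rw [abs_of_nonneg (by linarith)]
    linarith
  gcongr

/-! ### the arithmetic functions -/

theorem ex_zero : ex (0 : ℕ → ℝ) = 1 := by
  ext n
  rw [ex_apply, ArithmeticFunction.one_apply]
  by_cases h0 : n = 0
  · subst h0; simp
  rw [if_neg h0]
  by_cases h1 : n = 1
  · subst h1; simp
  rw [if_neg h1]
  obtain ⟨p, hp, hpn⟩ := Nat.exists_prime_and_dvd h1
  unfold Finsupp.prod
  have h2 : p ∈ n.factorization.support := by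
    rw [Nat.support_factorization, Nat.mem_primeFactors]
    exact ⟨hp, hpn, h0⟩
  rw [prod_eq_zero h2]
  · simp
  · have h3 : n.factorization p ≠ 0 := Finsupp.mem_support_iff.1 h2
    simp [h3]

theorem tr_one (l : ℕ) : tr l (1 : ArithmeticFunction ℂ) = 1 := by
  ext n
  rw [tr_apply]
  split_ifs with h
  · rfl
  · rw [ArithmeticFunction.one_apply, if_neg]
    rintro rfl
    simp at h

theorem ex_one' (v : ℕ → ℝ) : ex v 1 = 1 := by
  rw [ex_apply]; simp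

theorem ro_one' (Z : ℕ) {X : ℕ} (hX : 1 ≤ X) : ro Z X 1 = 1 := by
  classical
  rw [ro_apply, if_pos]
  refine ⟨one_ne_zero, hX, ?_⟩
  intro p hp h1
  exact absurd (Nat.dvd_one.1 h1) hp.one_lt.ne'

theorem mul_one' (f g : ArithmeticFunction ℂ) : (f * g) 1 = f 1 * g 1 := by
  rw [ArithmeticFunction.mul_apply]
  simp

theorem pow_one' (f : ArithmeticFunction ℂ) (hf : f 1 = 1) (k : ℕ) : (f ^ k) 1 = 1 := by
  induction k with
  | zero => simp
  | succ k ih => rw [pow_succ, mul_one', ih, hf, one_mul]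

theorem sh_one' (h : ℝ) (f : ArithmeticFunction ℂ) : sh h f 1 = f 1 := by
  rw [sh_apply]; simp

theorem RF_one' {η T : ℝ} (hN : 1 ≤ Nt η T) (s0 s1 : ℕ) (h : ℝ) : RF η T s0 s1 h 1 = 1 := by
  unfold RF
  rw [mul_one', pow_one' _ (ro_one' _ hN), pow_one' _ (by rw [sh_one', ro_one' _ hN]), one_mul]

theorem nm_ge_one {X : ℕ} {f : ArithmeticFunction ℂ} (hf : FS X f) (h1 : f 1 = 1) : 1 ≤ nm f := by
  have h2 := (nm_summable hf).le_tsum 1 (fun n _ => by positivity)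
  rw [h1] at h2
  have h3 : (1 : ℝ) ≤ ∑' n : ℕ, ‖f n‖ ^ 2 / (n : ℝ) := by simpa using h2
  exact h3

theorem FS_pow {X : ℕ} {f : ArithmeticFunction ℂ} (hf : FS X f) (k : ℕ) : FS (X ^ k) (f ^ k) := by
  induction k with
  | zero => simpa using FS_one
  | succ k ih => rw [pow_succ, pow_succ]; exact FS_mul ih hf

theorem RF_nm {η T : ℝ} (hN : 1 ≤ Nt η T) (s0 s1 : ℕ) (h : ℝ) : 1 ≤ nm (RF η T s0 s1 h) := by
  refine nm_ge_one (X := Nt η T ^ s0 * Nt η T ^ s1) ?_ (RF_one' hN s0 s1 h)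
  unfold RF
  exact FS_mul (FS_pow (FS_ro _ _) _) (FS_pow (FS_sh h (FS_ro _ _)) _)

theorem eT_zero (l : ℕ) : eT l 0 = 1 := by
  unfold eT
  rw [sum_range_succ']
  simp

theorem PV_zero (Z : ℕ) (t : ℝ) : PV Z (0 : ℕ → ℝ) t = 0 := by
  unfold PV
  simp

theorem Wt_zero (Z : ℕ) : Wt Z (0 : ℕ → ℝ) := fun p => ⟨by simp, fun _ => rfl⟩

theorem FF_one (η T h : ℝ) : FF η T 1 0 h 0 0 = dd η T := by
  unfold FF GT RF dd
  rw [ex_zero, tr_one, sh_one]
  simp

theorem FF_two (η T h : ℝ) : FF η T 1 1 h 0 0 = dd η T * sh h (dd η T) := by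
  unfold FF GT RF dd
  rw [ex_zero, tr_one, sh_one, sh_mul]
  simp only [pow_one, mul_one]
  rw [mul_mul_mul_comm]

end Pool.Agent.Q16.EW
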