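import Pool.Agent.Q16.EW.Bas

set_option autoImplicit false

/-! # Project EW: the common core of the jobs EW-G1 and EW-G2 -/

namespace Pool.Agent.Q16.EW

open Filter Topology MeasureTheory Finset
open Pool.Agent.Q80.EW

/-- the good set -/
def Gs (T : ℝ) (m : ℕ) (h : ℝ) : Set ℝ := {t | NE T m t ∧ NE T m (t + h)}

theorem NE_closed (T : ℝ) (m : ℕ) (h : ℝ) : IsClosed {t : ℝ | NE T m (t + h)} := by
  have : {t : ℝ | NE T m (t + h)} = ⋂ i : ℕ, ⋂ _ : i ≤ m, {t : ℝ | ‖PP ((i : ℝ) * (Yt T / m)) (t + h)‖ ≤ 40 * La T} := by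
    ext t
    simp [NE]
  rw [this]
  refine isClosed_iInter fun i => isClosed_iInter fun _ => ?_
  exact isClosed_le ((PP_cont _).comp (continuous_id.add continuous_const)).norm continuous_const

theorem Gs_closed (T : ℝ) (m : ℕ) (h : ℝ) : IsClosed (Gs T m h) := by
  have h1 := NE_closed T m 0
  simp only [add_zero] at h1
  exact h1.inter (NE_closed T m h)

/-- the exceptional set of EXC is open -/
theorem Ex_open (a c h : ℝ) : IsOpen {t : ℝ | c < ‖PP a t‖ ∨ c < ‖PP a (t + h)‖} :=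
  (isOpen_lt continuous_const (PP_cont a).norm).union
    (isOpen_lt continuous_const ((PP_cont a).comp (continuous_id.add continuous_const)).norm)

/-- algebra of two approximations -/
theorem two_app {q a b A B : ℝ} (hq0 : 0 ≤ q) (hq : q ≤ 1 / 8) (hA : 0 ≤ A) (hB : 0 ≤ B)
    (h1 : |a - A| ≤ q * A) (h2 : |b - B| ≤ q * B) : |a * b - A * B| ≤ 6 * q * (a * b) := by
  have h3 := abs_le.1 h1
  have h4 := abs_le.1 h2
  have ha : (1 - q) * A ≤ a := by linarith [h3.1]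
  have hb : (1 - q) * B ≤ b := by linarith [h4.1]
  have ha' : a ≤ (1 + q) * A := by linarith [h3.2]
  have hb' : b ≤ (1 + q) * B := by linarith [h4.2]
  have ha0 : 0 ≤ a := le_trans (mul_nonneg (by linarith) hA) ha
  have hb0 : 0 ≤ b := le_trans (mul_nonneg (by linarith) hB) hb
  have hAB : 0 ≤ A * B := mul_nonneg hA hB
  have h5 : (1 - q) ^ 2 * (A * B) ≤ a * b := by
    have := mul_le_mul ha hb (mul_nonneg (by linarith) hB) ha0
    nlinarith
  have h6 : a * b ≤ (1 + q) ^ 2 * (A * B) := by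
    have := mul_le_mul ha' hb' hb0 (mul_nonneg (by linarith) hA)
    nlinarith
  have h7 : A * B ≤ 2 * (a * b) := by
    have : (1 / 2 : ℝ) * (A * B) ≤ (1 - q) ^ 2 * (A * B) := by
      apply mul_le_mul_of_nonneg_right _ hAB
      nlinarith
    linarith
  have h8 : |a * b - A * B| ≤ 3 * q * (A * B) := by
    rw [abs_le]
    constructor
    · have : (1 - 3 * q) * (A * B) ≤ (1 - q) ^ 2 * (A * B) := by
        apply mul_le_mul_of_nonneg_right _ hAB
        nlinarith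
      linarith
    · have : (1 + q) ^ 2 * (A * B) ≤ (1 + 3 * q) * (A * B) := by
        apply mul_le_mul_of_nonneg_right _ hAB
        nlinarith
      linarith
  have : 3 * q * (A * B) ≤ 3 * q * (2 * (a * b)) := by gcongr
  linarith

/-- facts at one value of `T` -/
structure Fa (η T : ℝ) (m : ℕ) (u u' : Fin m → ℝ) (δ : ℝ) : Prop where
  hT : 0 < T
  hLa : 0 < La T
  hY : 0 ≤ Yt T
  hlog : 0 < Real.log T
  hu : ∑ i, |u i| ≤ Real.sqrt (La T)
  hu' : ∑ i, |u' i| ≤ Real.sqrt (La T)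
  hN : 1 ≤ Nt η T
  het : ∀ w : ℂ, ‖w‖ ≤ (el T : ℝ) / 10 →
    |‖eT (el T) w‖ ^ 2 - Real.exp (2 * w.re)| ≤ Real.exp (-(el T : ℝ)) * Real.exp (2 * w.re)
  hq : Real.exp (-(el T : ℝ)) ≤ δ
  hE : Real.exp (-(vu T m u) - vu T m u') ≤ δ * Real.log T
  hpow : T ^ (1 - 2 * η) ≤ δ * T
  hexc : ∀ (s0 s1 : ℕ) (h a : ℝ) (v v' : ℕ → ℝ), s0 ≤ 1 → s1 ≤ 1 → 0 ≤ a → a ≤ Yt T →
    (∀ p, |v p| ≤ 1 / 2) → (∀ p, |v' p| ≤ 1 / 2) → Wt (zc (Yt T)) v → Wt (zc (Yt T)) v' →
    ∫ t in T..(4 * T), Set.indicator {t | 40 * La T < ‖PP a t‖ ∨ 40 * La T < ‖PP a (t + h)‖}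
      (fun t => ‖dp (FF η T s0 s1 h v v') t‖ ^ 2) t ≤ T / Real.log T
  hff : FS ⌊T ^ (1 / 2 - η)⌋₊ (dd η T) ∧
    ∀ (s0 s1 : ℕ) (h : ℝ) (v v' : ℕ → ℝ), s0 ≤ 1 → s1 ≤ 1 → Wt (zc (Yt T)) v → Wt (zc (Yt T)) v' →
    FS ⌊T ^ (1 - 3 * η)⌋₊ (FF η T s0 s1 h v v') ∧
    (∀ t : ℝ, dp (FF η T s0 s1 h v v') t = Dp η T t ^ s0 * Dp η T (t + h) ^ s1 *
      eT (el T) (PV (zc (Yt T)) v t) * eT (el T) (PV (zc (Yt T)) v' (t + h))) ∧
    nm (FF η T s0 s1 h v v') = nm (GT (el T) s0 s1 (zc (Yt T)) h v v') * nm (RF η T s0 s1 h) ∧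
    ∀ a b : ℝ, a ≤ b → |(∫ t in a..b, ‖dp (FF η T s0 s1 h v v') t‖ ^ 2) -
      (b - a) * nm (FF η T s0 s1 h v v')| ≤ T ^ (1 - 2 * η) * nm (FF η T s0 s1 h v v')
  htail : ∀ (s0 s1 : ℕ) (h : ℝ) (v v' : ℕ → ℝ), s0 ≤ 1 → s1 ≤ 1 → Wt (zc (Yt T)) v → Wt (zc (Yt T)) v' →
    |nm (GT (el T) s0 s1 (zc (Yt T)) h v v') - nm (GG s0 s1 (zc (Yt T)) h v v')| ≤ δ

section

variable {η T : ℝ} {m : ℕ} {u u' : Fin m → ℝ} {δ : ℝ}

theorem Fa.wt (F : Fa η T m u u' δ) (hm : 1 ≤ m) : Wt (zc (Yt T)) (wu T m u) ∧ ∀ p, |wu T m u p| ≤ 1 / 2 := by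
  have hs : 0 < Real.sqrt (La T) := Real.sqrt_pos.2 F.hLa
  have h1 : ∀ p, |wu T m u p| ≤ 1 / 2 := by
    intro p
    refine (wu_abs u p).trans ?_
    rw [div_le_div_iff₀ (by positivity) (by norm_num)]
    linarith [F.hu]
  exact ⟨fun p => ⟨(h1 p).trans (by norm_num), fun hp => wu_zero hm F.hY u hp⟩, h1⟩

theorem Fa.wt' (F : Fa η T m u u' δ) (hm : 1 ≤ m) : Wt (zc (Yt T)) (wu T m u') ∧ ∀ p, |wu T m u' p| ≤ 1 / 2 := by
  have hs : 0 < Real.sqrt (La T) := Real.sqrt_pos.2 F.hLa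
  have h1 : ∀ p, |wu T m u' p| ≤ 1 / 2 := by
    intro p
    refine (wu_abs u' p).trans ?_
    rw [div_le_div_iff₀ (by positivity) (by norm_num)]
    linarith [F.hu']
  exact ⟨fun p => ⟨(h1 p).trans (by norm_num), fun hp => wu_zero hm F.hY u' hp⟩, h1⟩

/-- the target function -/
noncomputable def Tg (η T : ℝ) (m : ℕ) (u u' : Fin m → ℝ) (s1 : ℕ) (h t : ℝ) : ℝ :=
  ‖Dp η T t‖ ^ 2 * ‖Dp η T (t + h) ^ s1‖ ^ 2 *
      Real.exp (∑ i, u i * De T m i t + ∑ i, u' i * De T m i (t + h))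

theorem el_ge (T : ℝ) : 40 * La T ≤ (el T : ℝ) / 10 := by
  have : 400 * La T ≤ (el T : ℝ) := Nat.le_ceil _
  linarith

/-- the pointwise comparison on the good set -/
theorem Fa.pt (F : Fa η T m u u' δ) (hm : 1 ≤ m) (hδ0 : 0 ≤ δ) (hδ : δ ≤ 1 / 8) {s1 : ℕ} (hs1 : s1 ≤ 1) {h t : ℝ}
    (ht : t ∈ Gs T m h) :
    |Tg η T m u u' s1 h t - Real.exp (-(vu T m u) - vu T m u') *
      ‖dp (FF η T 1 s1 h (wu T m u) (wu T m u')) t‖ ^ 2| ≤
    6 * δ * (Real.exp (-(vu T m u) - vu T m u') * ‖dp (FF η T 1 s1 h (wu T m u) (wu T m u')) t‖ ^ 2) := by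
  have h1 := PV_bd hm F.hY F.hLa u F.hu ht.1
  have h2 := PV_bd hm F.hY F.hLa u' F.hu' ht.2
  have h3 := F.het _ (h1.trans (el_ge T))
  have h4 := F.het _ (h2.trans (el_ge T))
  have h5 := two_app hδ0 hδ (Real.exp_pos _).le (Real.exp_pos _).le
    (h3.trans (mul_le_mul_of_nonneg_right F.hq (Real.exp_pos _).le))
    (h4.trans (mul_le_mul_of_nonneg_right F.hq (Real.exp_pos _).le))
  rw [(F.hff.2 1 s1 h _ _ le_rfl hs1 (F.wt hm).1 (F.wt' hm).1).2.1 t]
  unfold Tg
  rw [De_sum hm F.hY, De_sum hm F.hY]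
  set w1 := PV (zc (Yt T)) (wu T m u) t
  set w2 := PV (zc (Yt T)) (wu T m u') (t + h)
  have h6 : Real.exp (2 * w1.re - vu T m u + (2 * w2.re - vu T m u')) =
      Real.exp (-(vu T m u) - vu T m u') * (Real.exp (2 * w1.re) * Real.exp (2 * w2.re)) := by
    rw [← Real.exp_add, ← Real.exp_add]
    congr 1; ring
  rw [h6]
  have h7 : ‖Dp η T t ^ 1 * Dp η T (t + h) ^ s1 * eT (el T) w1 * eT (el T) w2‖ ^ 2 =
      ‖Dp η T t‖ ^ 2 * ‖Dp η T (t + h) ^ s1‖ ^ 2 * (‖eT (el T) w1‖ ^ 2 * ‖eT (el T) w2‖ ^ 2) := by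
    rw [norm_mul, norm_mul, norm_mul, pow_one]
    ring
  rw [h7]
  set P := ‖Dp η T t‖ ^ 2 * ‖Dp η T (t + h) ^ s1‖ ^ 2
  set E := Real.exp (-(vu T m u) - vu T m u')
  have hP : 0 ≤ P := by positivity
  have hE : 0 ≤ E := (Real.exp_pos _).le
  have h8 : P * (E * (Real.exp (2 * w1.re) * Real.exp (2 * w2.re))) -
      E * (P * (‖eT (el T) w1‖ ^ 2 * ‖eT (el T) w2‖ ^ 2)) =
      -(P * E * (‖eT (el T) w1‖ ^ 2 * ‖eT (el T) w2‖ ^ 2 - Real.exp (2 * w1.re) * Real.exp (2 * w2.re))) := by ring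
  rw [h8, abs_neg, abs_mul, abs_of_nonneg (mul_nonneg hP hE)]
  calc P * E * |‖eT (el T) w1‖ ^ 2 * ‖eT (el T) w2‖ ^ 2 - Real.exp (2 * w1.re) * Real.exp (2 * w2.re)|
      ≤ P * E * (6 * δ * (‖eT (el T) w1‖ ^ 2 * ‖eT (el T) w2‖ ^ 2)) := by gcongr
    _ = _ := by ring

theorem Dp_cont (F : Fa η T m u u' δ) : Continuous (Dp η T) := dp_cont F.hff.1

theorem Tg_cont (F : Fa η T m u u' δ) (s1 : ℕ) (h : ℝ) : Continuous (Tg η T m u u' s1 h) := by
  have h1 := Dp_cont F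
  have h2 : Continuous fun t : ℝ => t + h := continuous_id.add continuous_const
  unfold Tg
  refine ((h1.norm.pow 2).mul (((h1.comp h2).pow s1).norm.pow 2)).mul (Real.continuous_exp.comp ?_)
  refine Continuous.add (continuous_finsetSum _ fun i _ => continuous_const.mul (De_cont T m i)) ?_
  exact continuous_finsetSum _ fun i _ => continuous_const.mul ((De_cont T m i).comp h2)

theorem ii_ind {f : ℝ → ℝ} (hf : Continuous f) {S : Set ℝ} (hS : MeasurableSet S) (a b : ℝ) :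
    IntervalIntegrable (Set.indicator S f) volume a b := by
  have h1 := hf.intervalIntegrable (μ := volume) a b
  rw [intervalIntegrable_iff] at h1 ⊢
  exact h1.indicator hS

/-- the integral comparison -/
theorem Fa.int (F : Fa η T m u u' δ) (hm : 1 ≤ m) (hδ0 : 0 ≤ δ) (hδ : δ ≤ 1 / 8) {s1 : ℕ} (hs1 : s1 ≤ 1) (h : ℝ) :
    |(∫ t in T..(3 * T), Set.indicator (Gs T m h) (Tg η T m u u' s1 h) t) -
      Real.exp (-(vu T m u) - vu T m u') *
        ∫ t in T..(3 * T), ‖dp (FF η T 1 s1 h (wu T m u) (wu T m u')) t‖ ^ 2| ≤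
    Real.exp (-(vu T m u) - vu T m u') *
      (6 * δ * (∫ t in T..(3 * T), ‖dp (FF η T 1 s1 h (wu T m u) (wu T m u')) t‖ ^ 2) +
        (m + 1) * (T / Real.log T)) := by
  have hT := F.hT
  have hle : T ≤ 3 * T := by linarith
  have hle4 : 3 * T ≤ 4 * T := by linarith
  set E := Real.exp (-(vu T m u) - vu T m u') with hEdef
  have hE : 0 ≤ E := (Real.exp_pos _).le
  set f : ℝ → ℝ := fun t => ‖dp (FF η T 1 s1 h (wu T m u) (wu T m u')) t‖ ^ 2 with hf
  have hf0 : ∀ t, 0 ≤ f t := fun t => by positivity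
  have hfc : Continuous f := (dp_cont (F.hff.2 1 s1 h _ _ le_rfl hs1 (F.wt hm).1 (F.wt' hm).1).1).norm.pow 2
  have hG : MeasurableSet (Gs T m h) := (Gs_closed T m h).measurableSet
  let ex : ℕ → Set ℝ := fun i => {t | 40 * La T < ‖PP ((i : ℝ) * (Yt T / m)) t‖ ∨
    40 * La T < ‖PP ((i : ℝ) * (Yt T / m)) (t + h)‖}
  have hex : ∀ i, MeasurableSet (ex i) := fun i => (Ex_open _ _ _).measurableSet
  -- pointwise
  have hpt : ∀ t, |Set.indicator (Gs T m h) (Tg η T m u u' s1 h) t - E * f t| ≤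
      E * (6 * δ * f t + ∑ i ∈ range (m + 1), Set.indicator (ex i) f t) := by
    intro t
    have hsum : 0 ≤ ∑ i ∈ range (m + 1), Set.indicator (ex i) f t :=
      sum_nonneg fun i _ => Set.indicator_nonneg (fun x _ => hf0 x) t
    by_cases ht : t ∈ Gs T m h
    · rw [Set.indicator_of_mem ht]
      have := F.pt hm hδ0 hδ hs1 ht
      refine this.trans ?_
      have h1 : E * (6 * δ * f t) ≤ E * (6 * δ * f t + ∑ i ∈ range (m + 1), Set.indicator (ex i) f t) := by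
        gcongr; linarith
      refine le_trans (le_of_eq ?_) h1
      ring
    · rw [Set.indicator_of_notMem ht, zero_sub, abs_neg, abs_of_nonneg (mul_nonneg hE (hf0 t))]
      have h2 : ∃ i ∈ range (m + 1), t ∈ ex i := by
        by_contra hc
        push Not at hc
        apply ht
        constructor
        · intro i hi
          have := hc i (mem_range.2 (by omega))
          simp only [ex, Set.mem_ofPred_eq, not_or, not_lt] at this
          exact this.1
        · intro i hi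
          have := hc i (mem_range.2 (by omega))
          simp only [ex, Set.mem_ofPred_eq, not_or, not_lt] at this
          exact this.2
      obtain ⟨i, hi, hti⟩ := h2
      have h3 : f t ≤ ∑ i ∈ range (m + 1), Set.indicator (ex i) f t := by
        have := single_le_sum (f := fun i => Set.indicator (ex i) f t)
          (fun i _ => Set.indicator_nonneg (fun x _ => hf0 x) t) hi
        simp only [Set.indicator_of_mem hti] at this
        exact this
      have h4 : 0 ≤ 6 * δ * f t := by have := hf0 t; positivity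
      apply mul_le_mul_of_nonneg_left _ hE
      linarith
  have hi1 : IntervalIntegrable (Set.indicator (Gs T m h) (Tg η T m u u' s1 h)) volume T (3 * T) :=
    ii_ind (Tg_cont F s1 h) hG _ _
  have hi2 : IntervalIntegrable f volume T (3 * T) := hfc.intervalIntegrable _ _
  have hi3 : ∀ i ∈ range (m + 1), IntervalIntegrable (Set.indicator (ex i) f) volume T (3 * T) :=
    fun i _ => ii_ind hfc (hex i) _ _
  have hi4 : IntervalIntegrable (fun t => ∑ i ∈ range (m + 1), Set.indicator (ex i) f t) volume T (3 * T) := by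
    have := IntervalIntegrable.sum (range (m + 1)) hi3
    refine this.congr fun t _ => ?_
    simp
  rw [← intervalIntegral.integral_const_mul, ← intervalIntegral.integral_sub hi1 (hi2.const_mul E)]
  refine (intervalIntegral.abs_integral_le_integral_abs hle).trans ?_
  refine (intervalIntegral.integral_mono_on hle ?_ ?_ fun t _ => hpt t).trans ?_
  · exact (hi1.sub (hi2.const_mul E)).abs
  · exact ((hi2.const_mul (6 * δ)).add hi4).const_mul E
  rw [intervalIntegral.integral_const_mul, intervalIntegral.integral_add (hi2.const_mul (6 * δ)) hi4,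
    intervalIntegral.integral_const_mul, intervalIntegral.integral_finsetSum hi3]
  apply mul_le_mul_of_nonneg_left _ hE
  have h5 : ∑ i ∈ range (m + 1), ∫ t in T..(3 * T), Set.indicator (ex i) f t ≤ (m + 1) * (T / Real.log T) := by
    have h6 : ∀ i ∈ range (m + 1), ∫ t in T..(3 * T), Set.indicator (ex i) f t ≤ T / Real.log T := by
      intro i hi
      have h7 := F.hexc 1 s1 h ((i : ℝ) * (Yt T / m)) (wu T m u) (wu T m u') le_rfl hs1 (lev_nonneg F.hY i)
        (lev_le hm F.hY (by have := mem_range.1 hi; omega)) (F.wt hm).2 (F.wt' hm).2 (F.wt hm).1 (F.wt' hm).1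
      refine le_trans ?_ h7
      refine intervalIntegral.integral_mono_interval le_rfl hle hle4 ?_ (ii_ind hfc (hex i) _ _)
      exact Filter.Eventually.of_forall fun t => Set.indicator_nonneg (fun x _ => hf0 x) t
    refine (sum_le_sum h6).trans ?_
    rw [sum_const, card_range, nsmul_eq_mul]
    push_cast
    exact le_rfl
  linarith

/-- the algebra of the final comparison -/
theorem alg {T δ E J I x' y' x y ρ L M P : ℝ} (hT : 0 < T) (hE : 0 < E) (hL : 0 < L) (hM : 0 ≤ M) (hδ0 : 0 ≤ δ)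
    (hδ : δ ≤ 1 / 8) (hE' : E ≤ δ * L) (hpow : P ≤ δ * T)
    (h1 : |J - E * I| ≤ E * (6 * δ * I + M * (T / L)))
    (h5 : |I - (3 * T - T) * (x' * ρ)| ≤ P * (x' * ρ))
    (h6 : |x' - x| ≤ δ) (h7 : |y' - y| ≤ δ) (h8 : 1 ≤ x) (h9 : 1 ≤ y) (h10 : 1 ≤ ρ) :
    |J / (2 * T * (y' * ρ)) - x / y * E| ≤ 30 * δ * (x / y * E) + M * δ := by
  have hx' := abs_le.1 h6
  have hy' := abs_le.1 h7
  have hρ : 0 < ρ := by linarith
  have hy0 : 0 < y := by linarith
  have hx0 : 0 < x := by linarith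
  have hy'0 : 7 / 8 * y ≤ y' := by linarith [hy'.1]
  have hy'p : 0 < y' := by linarith
  have hx'0 : 0 < x' := by linarith [hx'.1]
  have hB : 0 < 2 * T * (y' * ρ) := by positivity
  have hxr : 0 < x' * ρ := by positivity
  -- the main term
  have hI : |I - 2 * T * (x' * ρ)| ≤ δ * T * (x' * ρ) := by
    have e1 : (3 * T - T) * (x' * ρ) = 2 * T * (x' * ρ) := by ring
    rw [e1] at h5
    exact h5.trans (mul_le_mul_of_nonneg_right hpow hxr.le)
  have hIu : I ≤ 3 * T * (x' * ρ) := by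
    have h11 := (abs_le.1 hI).2
    have h12 : δ * T * (x' * ρ) ≤ 1 * T * (x' * ρ) := by
      apply mul_le_mul_of_nonneg_right _ hxr.le
      apply mul_le_mul_of_nonneg_right _ hT.le
      linarith
    linarith
  have hJ : |J - E * (2 * T * (x' * ρ))| ≤ E * (19 * δ * T * (x' * ρ)) + E * (M * (T / L)) := by
    have e1 : J - E * (2 * T * (x' * ρ)) = (J - E * I) + E * (I - 2 * T * (x' * ρ)) := by ring
    rw [e1]
    refine (abs_add_le _ _).trans ?_
    rw [abs_mul, abs_of_pos hE]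
    have h12 : 6 * δ * I ≤ 6 * δ * (3 * T * (x' * ρ)) := mul_le_mul_of_nonneg_left hIu (by positivity)
    have h13 : E * |I - 2 * T * (x' * ρ)| ≤ E * (δ * T * (x' * ρ)) := mul_le_mul_of_nonneg_left hI hE.le
    have h14 : E * (6 * δ * I + M * (T / L)) ≤
        E * (6 * δ * (3 * T * (x' * ρ)) + M * (T / L)) := mul_le_mul_of_nonneg_left (by linarith) hE.le
    calc |J - E * I| + E * |I - 2 * T * (x' * ρ)| ≤
        E * (6 * δ * (3 * T * (x' * ρ)) + M * (T / L)) + E * (δ * T * (x' * ρ)) :=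
          add_le_add (h1.trans h14) h13
      _ = _ := by ring
  -- divide
  have hdiv : |J / (2 * T * (y' * ρ)) - E * (x' / y')| ≤ 19 / 2 * δ * (E * (x' / y')) + M * δ := by
    have e1 : J / (2 * T * (y' * ρ)) - E * (x' / y') = (J - E * (2 * T * (x' * ρ))) / (2 * T * (y' * ρ)) := by
      field_simp
    rw [e1, abs_div, abs_of_pos hB, div_le_iff₀ hB]
    refine hJ.trans ?_
    have e2 : (19 / 2 * δ * (E * (x' / y')) + M * δ) * (2 * T * (y' * ρ)) =
        E * (19 * δ * T * (x' * ρ)) + M * δ * (2 * T * (y' * ρ)) := by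
      field_simp
    rw [e2]
    have h15 : E * (M * (T / L)) ≤ M * δ * (2 * T * (y' * ρ)) := by
      have h16 : E * (M * (T / L)) ≤ (δ * L) * (M * (T / L)) :=
        mul_le_mul_of_nonneg_right hE' (by positivity)
      have h17 : (δ * L) * (M * (T / L)) = M * δ * T := by
        field_simp
      rw [h17] at h16
      refine h16.trans ?_
      have h18 : 1 / 2 ≤ y' * ρ := by
        have : 7 / 8 * 1 ≤ y' * ρ := mul_le_mul (by linarith) h10 (by norm_num) hy'p.le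
        linarith
      have h19 : T ≤ 2 * T * (y' * ρ) := by
        have := mul_le_mul_of_nonneg_left h18 (by positivity : 0 ≤ 2 * T)
        linarith
      exact mul_le_mul_of_nonneg_left h19 (by positivity)
    linarith
  -- compare the ratios
  have hratio : |x' / y' - x / y| ≤ 4 * δ * (x / y) := by
    have e1 : x' / y' - x / y = ((x' - x) * y - x * (y' - y)) / (y' * y) := by
      field_simp
      ring
    rw [e1, abs_div, abs_of_pos (mul_pos hy'p hy0), div_le_iff₀ (mul_pos hy'p hy0)]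
    have h21 : |(x' - x) * y - x * (y' - y)| ≤ δ * y + x * δ := by
      refine (abs_sub _ _).trans ?_
      rw [abs_mul, abs_mul, abs_of_pos hy0, abs_of_pos hx0]
      exact add_le_add (mul_le_mul_of_nonneg_right h6 hy0.le) (mul_le_mul_of_nonneg_left h7 hx0.le)
    refine h21.trans ?_
    have e2 : 4 * δ * (x / y) * (y' * y) = 4 * δ * x * y' := by field_simp
    rw [e2]
    have h22 : y + x ≤ 4 * (x * y') := by
      have a1 : x * (7 / 8 * y) ≤ x * y' := mul_le_mul_of_nonneg_left hy'0 hx0.le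
      have a2 : 1 * y ≤ x * y := mul_le_mul_of_nonneg_right h8 hy0.le
      have a3 : x * 1 ≤ x * y := mul_le_mul_of_nonneg_left h9 hx0.le
      linarith
    have h23 := mul_le_mul_of_nonneg_left h22 hδ0
    linarith
  have hR0 : 0 < x / y := by positivity
  have hRp : 0 < x / y * E := by positivity
  have h23 : |E * (x' / y') - x / y * E| ≤ 4 * δ * (x / y * E) := by
    rw [mul_comm (x / y) E, ← mul_sub, abs_mul, abs_of_pos hE]
    calc E * |x' / y' - x / y| ≤ E * (4 * δ * (x / y)) := mul_le_mul_of_nonneg_left hratio hE.le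
      _ = _ := by ring
  have h24 : E * (x' / y') ≤ 3 / 2 * (x / y * E) := by
    have h30 := (abs_le.1 h23).2
    have h31 : 4 * δ * (x / y * E) ≤ 1 / 2 * (x / y * E) := mul_le_mul_of_nonneg_right (by linarith) hRp.le
    linarith
  have h25 : |J / (2 * T * (y' * ρ)) - x / y * E| ≤ |J / (2 * T * (y' * ρ)) - E * (x' / y')| +
      |E * (x' / y') - x / y * E| := abs_sub_le _ _ _
  have h26 : 19 / 2 * δ * (E * (x' / y')) ≤ 19 / 2 * δ * (3 / 2 * (x / y * E)) :=
    mul_le_mul_of_nonneg_left h24 (by positivity)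
  have h27 : 0 ≤ δ * (x / y * E) := by positivity
  linarith

/-- the final comparison at one `T` -/
theorem Fa.fin (F : Fa η T m u u' δ) (hEU : ∀ (s0 s1 Z : ℕ) (h : ℝ) (v v' : ℕ → ℝ), s0 ≤ 1 → s1 ≤ 1 →
    Wt Z v → Wt Z v' → 1 ≤ nm (GG s0 s1 Z h v v')) (hm : 1 ≤ m) (hδ0 : 0 ≤ δ) (hδ : δ ≤ 1 / 8)
    {s1 : ℕ} (hs1 : s1 ≤ 1) (h : ℝ) :
    |(∫ t in T..(3 * T), Set.indicator (Gs T m h) (Tg η T m u u' s1 h) t) / (2 * T * nm (FF η T 1 s1 h 0 0)) -
      nm (GG 1 s1 (zc (Yt T)) h (wu T m u) (wu T m u')) /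
      nm (GG 1 s1 (zc (Yt T)) h 0 0) * Real.exp (-(vu T m u) - vu T m u')| ≤
      30 * δ * (nm (GG 1 s1 (zc (Yt T)) h (wu T m u) (wu T m u')) /
      nm (GG 1 s1 (zc (Yt T)) h 0 0) * Real.exp (-(vu T m u) - vu T m u')) + ((m : ℝ) + 1) * δ := by
  have h1 := F.int hm hδ0 hδ hs1 h
  obtain ⟨-, -, h2, h3⟩ := F.hff.2 1 s1 h _ _ le_rfl hs1 (F.wt hm).1 (F.wt' hm).1
  obtain ⟨-, -, h4, -⟩ := F.hff.2 1 s1 h 0 0 le_rfl hs1 (Wt_zero _) (Wt_zero _)
  have h5 := h3 T (3 * T) (by linarith [F.hT])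
  have h6 := F.htail 1 s1 h _ _ le_rfl hs1 (F.wt hm).1 (F.wt' hm).1
  have h7 := F.htail 1 s1 h 0 0 le_rfl hs1 (Wt_zero _) (Wt_zero _)
  have h8 := hEU 1 s1 (zc (Yt T)) h _ _ le_rfl hs1 (F.wt hm).1 (F.wt' hm).1
  have h9 := hEU 1 s1 (zc (Yt T)) h 0 0 le_rfl hs1 (Wt_zero _) (Wt_zero _)
  have h10 := RF_nm F.hN 1 s1 h
  rw [h2] at h5
  rw [h4]
  exact alg F.hT (Real.exp_pos _) F.hlog (by positivity) hδ0 hδ F.hE F.hpow h1 h5 h6 h7 h8 h9 h10

end

end Pool.Agent.Q16.EW
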