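import Pool.Agent.Q16.EW.Core

set_option autoImplicit false

/-! # Project EW, jobs EW-G1 and EW-G2: the moment generating function of the walk, one and two points -/

namespace Pool.Agent.Q16.EW

open Filter Topology MeasureTheory Finset
open Pool.Agent.Q80.EW

theorem La_top : Tendsto La atTop atTop := Real.tendsto_log_atTop.comp Real.tendsto_log_atTop

theorem two_log_le {y : ℝ} (hy : 0 < y) : 2 * Real.log y ≤ y := by
  have h1 := Real.log_le_sub_one_of_pos (half_pos hy)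
  rw [Real.log_div hy.ne' two_ne_zero] at h1
  have h2 := Real.log_two_lt_d9
  linarith

theorem Yt_nonneg {T : ℝ} (h : 0 < La T) : 0 ≤ Yt T := by
  unfold Yt
  linarith [two_log_le h]

theorem Yt_le {T : ℝ} (h : 1 ≤ La T) : Yt T ≤ La T := by
  unfold Yt
  linarith [Real.log_nonneg h]

theorem el_top : Tendsto el atTop atTop := by
  unfold el
  exact tendsto_nat_ceil_atTop.comp (La_top.const_mul_atTop (by norm_num))

theorem pow75 (T : ℝ) (hL : 0 ≤ La T) : Real.exp (100 * La T) ≤ (7 / 5 : ℝ) ^ (el T) := by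
  have h1 : (2 / 7 : ℝ) ≤ Real.log (7 / 5) := by
    have := Real.one_sub_inv_le_log_of_pos (show (0 : ℝ) < 7 / 5 by norm_num)
    norm_num at this ⊢
    exact this
  have h2 : 400 * La T ≤ (el T : ℝ) := Nat.le_ceil _
  rw [← Real.exp_log (show (0 : ℝ) < 7 / 5 by norm_num), ← Real.exp_nat_mul]
  apply Real.exp_le_exp.2
  have h3 : 400 * La T * (2 / 7) ≤ (el T : ℝ) * Real.log (7 / 5) := by
    apply mul_le_mul h2 h1 (by norm_num) (by positivity)
  linarith

theorem ev_lin (A B : ℝ) : ∀ᶠ T : ℝ in atTop, A * (Real.sqrt (La T) + B) ≤ La T := by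
  have h0 : Tendsto (fun T => Real.sqrt (La T)) atTop atTop := Real.tendsto_sqrt_atTop.comp La_top
  filter_upwards [h0.eventually_ge_atTop (|A| + |A * B| + 1), La_top.eventually_ge_atTop 0] with T h1 h2
  have h3 := Real.mul_self_sqrt h2
  have h4 : A * Real.sqrt (La T) ≤ |A| * Real.sqrt (La T) := by
    gcongr
    exact le_abs_self A
  have h5 := le_abs_self (A * B)
  have h6 := abs_nonneg (A * B)
  have h7 := abs_nonneg A
  nlinarith

theorem ev_fa (hFF : J_FF) (hEXC : J_EXC) (hTAIL : J_TAIL) (hET : J_ET) (hMERT : J_MERT)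
    {η : ℝ} (hη : 0 < η) (hη1 : η ≤ 1 / 100) {m : ℕ} (hm : 1 ≤ m) (u u' : Fin m → ℝ) {δ : ℝ} (hδ : 0 < δ) :
    ∀ᶠ T : ℝ in atTop, Fa η T m u u' δ := by
  obtain ⟨C, hC⟩ := hMERT
  obtain ⟨C₂, hC₂, htail⟩ := hTAIL
  have hC0 : 0 ≤ C := (abs_nonneg _).trans (hC 0 le_rfl)
  have hsq : Tendsto (fun T => Real.sqrt (La T)) atTop atTop := Real.tendsto_sqrt_atTop.comp La_top
  have hlq : Tendsto (fun T : ℝ => Real.exp (-(el T : ℝ))) atTop (𝓝 0) :=
    Real.tendsto_exp_neg_atTop_nhds_zero.comp (tendsto_natCast_atTop_atTop.comp el_top)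
  have hpow : Tendsto (fun T : ℝ => T ^ (-(2 * η))) atTop (𝓝 0) := tendsto_rpow_neg_atTop (by positivity)
  filter_upwards [eventually_ge_atTop (1 : ℝ), La_top.eventually_ge_atTop 1, Real.tendsto_log_atTop.eventually_gt_atTop 0,
    hsq.eventually_ge_atTop (∑ i, |u i|), hsq.eventually_ge_atTop (∑ i, |u' i|), el_top.eventually hET,
    hlq.eventually (ge_mem_nhds hδ), ev_lin (2 * ((∑ i, |u i|) + (∑ i, |u' i|))) C,
    La_top.eventually_ge_atTop (-(2 * Real.log δ)),
    hpow.eventually (ge_mem_nhds hδ), hEXC η hη hη1, hFF η hη hη1,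
    La_top.eventually_ge_atTop (51 * C + Real.log C₂ - Real.log δ)] with T h1 h2 h3 h4 h5 h6 h7 h8 h9 h10 h11 h12 h13
  have hL : 0 < La T := by linarith
  have hs : 0 < Real.sqrt (La T) := Real.sqrt_pos.2 hL
  have hs1 : 1 ≤ Real.sqrt (La T) := by
    rw [show (1 : ℝ) = Real.sqrt 1 by simp]
    exact Real.sqrt_le_sqrt h2
  have hY := Yt_nonneg hL
  have hYl := Yt_le h2
  have hvu : ∀ w : Fin m → ℝ, |vu T m w| ≤ (∑ i, |w i|) * (Real.sqrt (La T) + C) := by
    intro w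
    refine (vu_bd hC hm hY w).trans ?_
    rw [mul_div_assoc]
    have hw : 0 ≤ ∑ i, |w i| := sum_nonneg fun i _ => abs_nonneg _
    apply mul_le_mul_of_nonneg_left _ hw
    rw [div_le_iff₀ hs]
    have := Real.mul_self_sqrt hL.le
    nlinarith
  refine
    { hT := by linarith
      hLa := hL
      hY := hY
      hlog := h3
      hu := h4
      hu' := h5
      hN := ?_
      het := h6
      hq := h7
      hE := ?_
      hpow := ?_
      hexc := h11
      hff := h12
      htail := ?_ }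
  · unfold Nt
    apply Nat.le_floor
    rw [Nat.cast_one]
    exact Real.one_le_rpow h1 (by linarith)
  · have e1 : Real.log T = Real.exp (La T) := by
      unfold La
      rw [Real.exp_log h3]
    rw [e1, ← Real.exp_log hδ, ← Real.exp_add]
    apply Real.exp_le_exp.2
    have a1 := (abs_le.1 (hvu u)).1
    have a2 := (abs_le.1 (hvu u')).1
    linarith
  · have e1 : T ^ (1 - 2 * η) = T ^ (-(2 * η)) * T := by
      rw [show (1 - 2 * η : ℝ) = -(2 * η) + 1 by ring, Real.rpow_add (by linarith), Real.rpow_one]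
    rw [e1]
    exact mul_le_mul_of_nonneg_right h10 (by linarith)
  · intro s0 s1 h v v' hs0 hs1 hv hv'
    refine (htail (el T) s0 s1 (zc (Yt T)) h v v' hs0 hs1 hv hv').trans ?_
    have hVV : ∑ p ∈ Nat.primesBelow (zc (Yt T)), (1 : ℝ) / (p : ℝ) ≤ La T + C := by
      have := (abs_le.1 (hC _ hY)).2
      unfold VV at this
      linarith
    rw [div_le_iff₀ (by positivity)]
    have h14 := pow75 T hL.le
    calc C₂ * Real.exp (51 * ∑ p ∈ Nat.primesBelow (zc (Yt T)), (1 : ℝ) / (p : ℝ))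
        ≤ C₂ * Real.exp (51 * (La T + C)) := by gcongr
      _ = Real.exp (Real.log C₂ + 51 * (La T + C)) := by rw [Real.exp_add, Real.exp_log hC₂]
      _ ≤ Real.exp (Real.log δ + 100 * La T) := by
        apply Real.exp_le_exp.2
        linarith
      _ = δ * Real.exp (100 * La T) := by rw [Real.exp_add, Real.exp_log hδ]
      _ ≤ δ * (7 / 5 : ℝ) ^ (el T) := by gcongr

theorem wu_zero' (T : ℝ) (m : ℕ) : wu T m 0 = 0 := by
  funext p
  unfold wu
  simp

theorem vu_zero' (T : ℝ) (m : ℕ) : vu T m 0 = 0 := by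
  unfold vu
  simp

theorem Gs_zero (T : ℝ) (m : ℕ) : Gs T m 0 = {t | NE T m t} := by
  ext t
  simp [Gs]

/-- G1 -/
theorem g1 (hFF : J_FF) (hEXC : J_EXC) (hTAIL : J_TAIL) (hEU : J_EU) (hET : J_ET) (hMERT : J_MERT) (hONE : J_ONE) :
    J_G1 := by
  intro η m u hη hη1 hm
  obtain ⟨CE, -, hEU'⟩ := hEU
  have hone := hONE m u hm
  set c := Real.exp ((∑ i, u i ^ 2) / (4 * m)) with hc
  have hc0 : 0 < c := Real.exp_pos _
  rw [Metric.tendsto_atTop'] at hone
  rw [Metric.tendsto_nhds]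
  intro ε hε
  set δ : ℝ := min (1 / 8) (ε / (4 * (30 * (c + 1) + (m + 1)))) with hδ
  have hδ0 : 0 < δ := by positivity
  have hδ1 : δ ≤ 1 / 8 := min_le_left _ _
  have hδ2 : δ * (30 * (c + 1) + (m + 1)) ≤ ε / 4 := by
    have h1 : δ ≤ ε / (4 * (30 * (c + 1) + (m + 1))) := min_le_right _ _
    have h2 : 0 < 30 * (c + 1) + ((m : ℝ) + 1) := by positivity
    rw [le_div_iff₀ (by positivity)] at h1
    linarith
  obtain ⟨N, hN⟩ := hone (min 1 (ε / 2)) (by positivity)
  filter_upwards [ev_fa hFF hEXC hTAIL hET hMERT hη hη1 hm u 0 hδ0, eventually_gt_atTop N] with T hT hTN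
  have h1 := hT.fin (fun s0 s1 Z h v v' a b d e => (hEU' s0 s1 Z h v v' a b d e).2.1) hm hδ0.le hδ1 (s1 := 0)
    (by norm_num) 0
  rw [wu_zero', vu_zero', sub_zero, FF_one] at h1
  have h2 := hN T hTN
  rw [Real.dist_eq] at h2
  have e0 : (fun t => Set.indicator (Gs T m 0) (Tg η T m u 0 0 0) t) = fun t => Set.indicator {t | NE T m t}
      (fun t => ‖Dp η T t‖ ^ 2 * Real.exp (∑ i, u i * De T m i t)) t := by
    rw [Gs_zero]
    congr 1
    funext t
    unfold Tg
    simp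
  rw [e0] at h1
  rw [Real.dist_eq]
  set R := nm (GG 1 0 (zc (Yt T)) 0 (wu T m u) 0) / nm (GG 1 0 (zc (Yt T)) 0 0 0) * Real.exp (-(vu T m u))
  set J := (∫ t in T..(3 * T), Set.indicator {t | NE T m t}
    (fun t => ‖Dp η T t‖ ^ 2 * Real.exp (∑ i, u i * De T m i t)) t) / (2 * T * nm (dd η T))
  have h3 : |R - c| < 1 := h2.trans_le (min_le_left _ _)
  have h4 : |R - c| < ε / 2 := h2.trans_le (min_le_right _ _)
  have h5 : R ≤ c + 1 := by have := (abs_lt.1 h3).2; linarith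
  have h6 : |J - c| ≤ |J - R| + |R - c| := abs_sub_le _ _ _
  have h7 : 30 * δ * R + ((m : ℝ) + 1) * δ ≤ δ * (30 * (c + 1) + (m + 1)) := by
    have := mul_le_mul_of_nonneg_left h5 hδ0.le
    linarith
  linarith

/-- G2 -/
theorem g2 (hFF : J_FF) (hEXC : J_EXC) (hTAIL : J_TAIL) (hEU : J_EU) (hET : J_ET) (hMERT : J_MERT) (hTWO : J_TWO) :
    J_G2 := by
  intro η m u u' K hη hη1 hm
  obtain ⟨CE, -, hEU'⟩ := hEU
  set c := Real.exp ((∑ i, u i ^ 2 + ∑ i, u' i ^ 2) / (4 * m)) with hc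
  have hc0 : 0 < c := Real.exp_pos _
  rw [Metric.tendsto_nhds]
  intro ε hε
  set δ : ℝ := min (1 / 8) (ε / (4 * (30 * (c + 1) + (m + 1)))) with hδ
  have hδ0 : 0 < δ := by positivity
  have hδ1 : δ ≤ 1 / 8 := min_le_left _ _
  have hδ2 : δ * (30 * (c + 1) + (m + 1)) ≤ ε / 4 := by
    have h1 : δ ≤ ε / (4 * (30 * (c + 1) + (m + 1))) := min_le_right _ _
    have h2 : 0 < 30 * (c + 1) + ((m : ℝ) + 1) := by positivity
    rw [le_div_iff₀ (by positivity)] at h1
    linarith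
  have h0 : 0 < min 1 (ε / 4) := by positivity
  have hev := (ev_fa hFF hEXC hTAIL hET hMERT hη hη1 hm u u' hδ0).and (hTWO m u u' K _ hm h0)
  unfold lK
  rw [Filter.eventually_inf_principal]
  refine (hev.comap Prod.fst).mono ?_
  rintro ⟨T, h⟩ ⟨hT, htwo⟩ ⟨hh1, hh2⟩
  simp only at hT htwo hh1 hh2 ⊢
  have h1 := hT.fin (fun s0 s1 Z h v v' a b d e => (hEU' s0 s1 Z h v v' a b d e).2.1) hm hδ0.le hδ1 (s1 := 1)
    le_rfl h
  rw [FF_two] at h1
  have h2 := htwo h hh1 hh2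
  have e0 : (fun t => Set.indicator (Gs T m h) (Tg η T m u u' 1 h) t) =
      fun t => Set.indicator {t | NE T m t ∧ NE T m (t + h)}
      (fun t => ‖Dp η T t‖ ^ 2 * ‖Dp η T (t + h)‖ ^ 2 *
        Real.exp (∑ i, u i * De T m i t + ∑ i, u' i * De T m i (t + h))) t := by
    unfold Gs
    congr 1
    funext t
    unfold Tg
    simp
  rw [e0] at h1
  rw [Real.dist_eq]
  set R := nm (GG 1 1 (zc (Yt T)) h (wu T m u) (wu T m u')) / nm (GG 1 1 (zc (Yt T)) h 0 0) *
    Real.exp (-(vu T m u) - vu T m u')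
  set J := (∫ t in T..(3 * T), Set.indicator {t | NE T m t ∧ NE T m (t + h)}
      (fun t => ‖Dp η T t‖ ^ 2 * ‖Dp η T (t + h)‖ ^ 2 *
        Real.exp (∑ i, u i * De T m i t + ∑ i, u' i * De T m i (t + h))) t) / (2 * T * nm (dd η T * sh h (dd η T)))
  have h3 : |R - c| ≤ 1 := h2.trans (min_le_left _ _)
  have h4 : |R - c| ≤ ε / 4 := h2.trans (min_le_right _ _)
  have h5 : R ≤ c + 1 := by have := (abs_le.1 h3).2; linarith
  have h6 : |J - c| ≤ |J - R| + |R - c| := abs_sub_le _ _ _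
  have h7 : 30 * δ * R + ((m : ℝ) + 1) * δ ≤ δ * (30 * (c + 1) + (m + 1)) := by
    have := mul_le_mul_of_nonneg_left h5 hδ0.le
    linarith
  linarith

end Pool.Agent.Q16.EW
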