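import Pool.Agent.Q16.EW.P

set_option autoImplicit false

/-! # Project EW, job EW-M2: the two point mass -/

namespace Pool.Agent.Q16.EW

open Filter Topology MeasureTheory Finset
open Pool.Agent.Q80.EW

theorem Corr_nonneg (y h : ℝ) : 0 ≤ Corr y h := by
  unfold Corr
  apply prod_nonneg
  intro p hp
  have hp1 : (1 : ℝ) ≤ p := by exact_mod_cast (Nat.prime_of_mem_primesBelow hp).one_lt.le
  apply div_nonneg _ (by positivity)
  have : 1 / (p : ℝ) ^ 2 ≤ 1 := by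
    rw [div_le_one (by positivity)]
    nlinarith
  linarith

theorem A_pos (Z : ℕ) : 0 < ∏ p ∈ Nat.primesBelow Z, (1 - 1 / (p : ℝ))⁻¹ := by
  apply prod_pos
  intro p hp
  have hp1 : (2 : ℝ) ≤ p := by exact_mod_cast (Nat.prime_of_mem_primesBelow hp).two_le
  have : 1 / (p : ℝ) ≤ 1 / 2 := by
    apply one_div_le_one_div_of_le <;> linarith
  apply inv_pos.2
  linarith

theorem log_zc {y : ℝ} : Real.exp y ≤ Real.log (zc y) := by
  have h1 : Real.exp (Real.exp y) ≤ (zc y : ℝ) := Nat.le_ceil _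
  have := Real.log_le_log (Real.exp_pos _) h1
  rwa [Real.log_exp] at this

theorem exp_Yt {T : ℝ} (hL : 0 < La T) (hlog : 0 < Real.log T) : Real.exp (Yt T) = Real.log T / La T ^ 2 := by
  unfold Yt
  rw [Real.exp_sub, show (2 : ℝ) * Real.log (La T) = Real.log (La T) + Real.log (La T) by ring, Real.exp_add,
    Real.exp_log hL]
  have h1 : Real.exp (La T) = Real.log T := by unfold La; rw [Real.exp_log hlog]
  rw [h1, sq]

/-- powers of `Λ` against `log T` -/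
theorem La_pow_small (k : ℕ) (A : ℝ) : Tendsto (fun T : ℝ => A * La T ^ k / Real.log T) atTop (𝓝 0) := by
  have h1 : Tendsto (fun x : ℝ => x ^ k * Real.exp (-x)) atTop (𝓝 0) := Real.tendsto_pow_mul_exp_neg_atTop_nhds_zero k
  have h2 := (h1.comp La_top).const_mul A
  rw [mul_zero] at h2
  refine h2.congr' ?_
  filter_upwards [Real.tendsto_log_atTop.eventually_gt_atTop 0] with T hT
  simp only [Function.comp]
  have : Real.exp (-(La T)) = (Real.log T)⁻¹ := by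
    rw [Real.exp_neg]
    unfold La
    rw [Real.exp_log hT]
  rw [this]
  ring

/-- `exp (K √Λ) Λ^k exp (- c √(log T) / Λ) → 0` -/
theorem La_exp_small (k : ℕ) (K c A : ℝ) (hc : 0 < c) :
    Tendsto (fun T : ℝ => A * (1 + Real.exp (K * Real.sqrt (La T))) * La T ^ k *
      Real.exp (-(c * Real.sqrt (Real.log T / La T ^ 2)))) atTop (𝓝 0) := by
  have hsq : Tendsto (fun T => Real.sqrt (La T)) atTop atTop := Real.tendsto_sqrt_atTop.comp La_top
  have h1 : Tendsto (fun T : ℝ => 2 * |A| * (La T ^ k * Real.exp (-(La T)))) atTop (𝓝 0) := by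
    have := ((Real.tendsto_pow_mul_exp_neg_atTop_nhds_zero k).comp La_top).const_mul (2 * |A|)
    rwa [mul_zero] at this
  have h3 : Tendsto (fun T : ℝ => 1 * La T ^ 4 / Real.log T) atTop (𝓝 0) := La_pow_small 4 1
  have h4 : ∀ᶠ T : ℝ in atTop, 1 * La T ^ 4 / Real.log T < (c / (|K| + 1)) ^ 2 :=
    h3.eventually (gt_mem_nhds (by positivity))
  refine squeeze_zero_norm' ?_ h1
  filter_upwards [hsq.eventually_ge_atTop 1, Real.tendsto_log_atTop.eventually_gt_atTop 0,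
    La_top.eventually_ge_atTop 1, h4] with T h5 h6 h7 h8
  rw [Real.norm_eq_abs, abs_mul, abs_mul, abs_mul, abs_of_pos (Real.exp_pos _),
    abs_of_pos (a := 1 + Real.exp (K * Real.sqrt (La T))) (by positivity),
    abs_of_nonneg (a := La T ^ k) (by positivity)]
  have h9 : (|K| + 1) * La T ≤ c * Real.sqrt (Real.log T / La T ^ 2) := by
    have e1 : (|K| + 1) * La T = c * ((|K| + 1) / c * La T) := by field_simp
    rw [e1]
    apply mul_le_mul_of_nonneg_left _ hc.le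
    apply Real.le_sqrt_of_sq_le
    rw [le_div_iff₀ (by positivity)]
    rw [div_lt_iff₀ h6] at h8
    have h10 : ((|K| + 1) / c) ^ 2 * (c / (|K| + 1)) ^ 2 = 1 := by
      have : |K| + 1 ≠ 0 := by positivity
      field_simp
    calc ((|K| + 1) / c * La T) ^ 2 * La T ^ 2 = ((|K| + 1) / c) ^ 2 * (1 * La T ^ 4) := by ring
      _ ≤ ((|K| + 1) / c) ^ 2 * ((c / (|K| + 1)) ^ 2 * Real.log T) := by gcongr
      _ = Real.log T := by rw [← mul_assoc, h10, one_mul]
  have h11 : K * Real.sqrt (La T) ≤ |K| * La T := by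
    have a1 := Real.mul_self_sqrt (show 0 ≤ La T by linarith)
    have a2 : Real.sqrt (La T) ≤ La T := by nlinarith
    calc K * Real.sqrt (La T) ≤ |K| * Real.sqrt (La T) := by gcongr; exact le_abs_self K
      _ ≤ |K| * La T := by gcongr
  have h12 : 1 + Real.exp (K * Real.sqrt (La T)) ≤ 2 * Real.exp (|K| * La T) := by
    have a1 := Real.exp_le_exp.2 h11
    have a2 : 1 ≤ Real.exp (|K| * La T) := Real.one_le_exp (by positivity)
    linarith
  have h13 : Real.exp (-(c * Real.sqrt (Real.log T / La T ^ 2))) ≤ Real.exp (-((|K| + 1) * La T)) :=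
    Real.exp_le_exp.2 (by linarith)
  calc |A| * (1 + Real.exp (K * Real.sqrt (La T))) * La T ^ k * Real.exp (-(c * Real.sqrt (Real.log T / La T ^ 2)))
      ≤ |A| * (2 * Real.exp (|K| * La T)) * La T ^ k * Real.exp (-((|K| + 1) * La T)) := by gcongr
    _ = 2 * |A| * (La T ^ k * (Real.exp (|K| * La T) * Real.exp (-((|K| + 1) * La T)))) := by ring
    _ = 2 * |A| * (La T ^ k * Real.exp (-(La T))) := by
      rw [← Real.exp_add]
      congr 4
      ring

/-- the last error term -/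
theorem La_last (A : ℝ) : Tendsto (fun T : ℝ => A * La T ^ 4 * ((2 * Real.log T + 2) / Real.exp (Real.log T / La T ^ 2)))
    atTop (𝓝 0) := by
  have h1 : Tendsto (fun T : ℝ => 4 * |A| * (Real.sqrt (Real.log T) ^ 4 * Real.exp (-(Real.sqrt (Real.log T)))))
      atTop (𝓝 0) := by
    have := ((Real.tendsto_pow_mul_exp_neg_atTop_nhds_zero 4).comp
      (Real.tendsto_sqrt_atTop.comp Real.tendsto_log_atTop)).const_mul (4 * |A|)
    rwa [mul_zero] at this
  have h4 : ∀ᶠ T : ℝ in atTop, 1 * La T ^ 4 / Real.log T < 1 :=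
    (La_pow_small 4 1).eventually (gt_mem_nhds (by norm_num))
  refine squeeze_zero_norm' ?_ h1
  filter_upwards [h4, Real.tendsto_log_atTop.eventually_ge_atTop 1, La_top.eventually_ge_atTop 1] with T h5 h6 h7
  have hx : 0 < Real.log T := by linarith
  rw [div_lt_iff₀ hx, one_mul, one_mul] at h5
  have hs := Real.mul_self_sqrt hx.le
  have h8 : Real.sqrt (Real.log T) ≤ Real.log T / La T ^ 2 := by
    rw [le_div_iff₀ (by positivity)]
    have h9 : La T ^ 2 ≤ Real.sqrt (Real.log T) := by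
      apply Real.le_sqrt_of_sq_le
      calc (La T ^ 2) ^ 2 = La T ^ 4 := by ring
        _ ≤ Real.log T := h5.le
    nlinarith [Real.sqrt_nonneg (Real.log T)]
  rw [Real.norm_eq_abs, abs_mul, abs_mul, abs_of_nonneg (a := La T ^ 4) (by positivity),
    abs_of_nonneg (a := (2 * Real.log T + 2) / Real.exp (Real.log T / La T ^ 2)) (by positivity), div_eq_mul_inv,
    ← Real.exp_neg]
  have h10 : Real.exp (-(Real.log T / La T ^ 2)) ≤ Real.exp (-(Real.sqrt (Real.log T))) :=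
    Real.exp_le_exp.2 (by linarith)
  have h11 : 2 * Real.log T + 2 ≤ 4 * Real.log T := by linarith
  calc |A| * La T ^ 4 * ((2 * Real.log T + 2) * Real.exp (-(Real.log T / La T ^ 2)))
      ≤ |A| * Real.log T * ((4 * Real.log T) * Real.exp (-(Real.sqrt (Real.log T)))) := by gcongr
    _ = 4 * |A| * (Real.sqrt (Real.log T) ^ 4 * Real.exp (-(Real.sqrt (Real.log T)))) := by
      have : Real.sqrt (Real.log T) ^ 4 = Real.log T * Real.log T := by
        calc Real.sqrt (Real.log T) ^ 4 = (Real.sqrt (Real.log T) * Real.sqrt (Real.log T)) *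
            (Real.sqrt (Real.log T) * Real.sqrt (Real.log T)) := by ring
          _ = _ := by rw [hs]
      rw [this]
      ring

/-- the truncation error is small -/
theorem ev_tail (hTAIL : J_TAIL) (hMERT : J_MERT) {δ : ℝ} (hδ : 0 < δ) (A : ℝ) : ∀ᶠ T : ℝ in atTop,
    ∀ (s0 s1 : ℕ) (h : ℝ) (v v' : ℕ → ℝ), s0 ≤ 1 → s1 ≤ 1 → Wt (zc (Yt T)) v → Wt (zc (Yt T)) v' →
    |nm (GT (el T) s0 s1 (zc (Yt T)) h v v') - nm (GG s0 s1 (zc (Yt T)) h v v')| ≤
      δ * Real.exp (-(40 * La T) + A) := by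
  obtain ⟨C, hC⟩ := hMERT
  obtain ⟨C₂, hC₂, htail⟩ := hTAIL
  filter_upwards [La_top.eventually_ge_atTop 1,
    La_top.eventually_ge_atTop (51 * C + Real.log C₂ - Real.log δ - A)] with T h2 h13
  have hL : 0 < La T := by linarith
  have hY := Yt_nonneg hL
  have hYl := Yt_le h2
  intro s0 s1 h v v' hs0 hs1 hv hv'
  refine (htail (el T) s0 s1 (zc (Yt T)) h v v' hs0 hs1 hv hv').trans ?_
  have hVV : ∑ p ∈ Nat.primesBelow (zc (Yt T)), (1 : ℝ) / (p : ℝ) ≤ La T + C := by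
    have := (abs_le.1 (hC _ hY)).2
    unfold VV at this
    linarith
  rw [div_le_iff₀ (by positivity)]
  have h14 := pow75 T hL.le
  calc C₂ * Real.exp (51 * ∑ p ∈ Nat.primesBelow (zc (Yt T)), (1 : ℝ) / (p : ℝ))
      ≤ C₂ * Real.exp (51 * (La T + C)) := by gcongr
    _ = Real.exp (Real.log C₂ + 51 * (La T + C)) := by rw [Real.exp_add, Real.exp_log hC₂]
    _ ≤ Real.exp (Real.log δ + (-(40 * La T) + A) + 100 * La T) := by
      apply Real.exp_le_exp.2
      linarith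
    _ = δ * Real.exp (-(40 * La T) + A) * Real.exp (100 * La T) := by
      rw [Real.exp_add, Real.exp_add, Real.exp_log hδ]
    _ ≤ δ * Real.exp (-(40 * La T) + A) * (7 / 5 : ℝ) ^ (el T) := by gcongr

theorem RF10 (η T h : ℝ) : RF η T 1 0 h = ro (zc (Yt T)) (Nt η T) := by
  unfold RF; simp

theorem RF11 (η T h : ℝ) : RF η T 1 1 h = ro (zc (Yt T)) (Nt η T) * sh h (ro (zc (Yt T)) (Nt η T)) := by
  unfold RF; simp

/-- M2 -/
theorem m2 (hFF : J_FF) (hTAIL : J_TAIL) (hE3 : J_E3) (hEU : J_EU) (hFR : J_FR) (hPS : J_PS) (hRHO : J_RHO)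
    (hMASS : J_MASS) (hMERT : J_MERT) : J_M2 := by
  intro η K ε hη hη1 hε
  obtain ⟨CE, -, hEU'⟩ := hEU
  obtain ⟨C₁, c₁, hC₁, hc₁, hps⟩ := hPS
  obtain ⟨C₃, hrho⟩ := hRHO
  -- the small parameter
  obtain ⟨q, hq0, hq1, hq⟩ : ∃ q : ℝ, 0 < q ∧ q ≤ 1 / 2 ∧ (1 + q) * (1 + q) * ((1 + q) / (1 - q)) ^ 2 ≤ 1 + ε := by
    have h1 : ContinuousAt (fun q : ℝ => (1 + q) * (1 + q) * ((1 + q) / (1 - q)) ^ 2) 0 := by
      refine ContinuousAt.mul (by fun_prop) (ContinuousAt.pow ?_ 2)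
      exact ContinuousAt.div (by fun_prop) (by fun_prop) (by norm_num)
    have h2 : ∀ᶠ q : ℝ in 𝓝 0, (1 + q) * (1 + q) * ((1 + q) / (1 - q)) ^ 2 < 1 + ε := by
      apply h1.eventually (gt_mem_nhds _)
      norm_num
      exact hε
    have h3 : ∀ᶠ q : ℝ in 𝓝[>] 0, (1 + q) * (1 + q) * ((1 + q) / (1 - q)) ^ 2 < 1 + ε := h2.filter_mono nhdsWithin_le_nhds
    have h4 : ∀ᶠ q : ℝ in 𝓝[>] (0 : ℝ), q ∈ Set.Ioc (0 : ℝ) (1 / 2) := Ioc_mem_nhdsGT (by norm_num)
    obtain ⟨q, h5, h6⟩ := (h3.and h4).exists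
    exact ⟨q, h6.1, h6.2, h5.le⟩
  have hmass := hMASS η hη hη1
  have hc0 : 0 < 1 / 2 - 2 * η := by linarith
  have hm1 : ∀ᶠ T : ℝ in atTop, nm (dd η T) / Real.log T ≤ (1 / 2 - 2 * η) * (1 + q) :=
    hmass.eventually (ge_mem_nhds (by nlinarith))
  -- the error of the rough part
  have hq3 : 0 < q / 3 := by positivity
  have hr1 := (La_pow_small 6 (4 * C₁ * C₃ ^ 2)).eventually (ge_mem_nhds hq3)
  have hr2 := (La_exp_small 4 K c₁ (4 * C₁ * C₃ ^ 2) hc₁).eventually (ge_mem_nhds hq3)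
  have hr3 := (La_last (4 * C₃ ^ 2)).eventually (ge_mem_nhds hq3)
  filter_upwards [hFF η hη hη1, hm1, hr1, hr2, hr3, ev_tail hTAIL hMERT hq0 0, hrho η hη hη1,
    ev_Nt hη1, Real.tendsto_log_atTop.eventually_ge_atTop 1, La_top.eventually_ge_atTop 1,
    eventually_ge_atTop (1 : ℝ)] with T t1 t2 t3 t4 t5 t6 t7 t8 t9 t10 t11 h hh1 hh2
  have hlog : 0 < Real.log T := by linarith
  have hL : 0 < La T := by linarith
  have hY := Yt_nonneg hL
  have hW := Wt_zero (zc (Yt T))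
  -- the smooth part
  have htau : ∀ (s1 : ℕ), s1 ≤ 1 → |nm (GT (el T) 1 s1 (zc (Yt T)) h 0 0) - nm (GG 1 s1 (zc (Yt T)) h 0 0)| ≤ q := by
    intro s1 hs1
    refine (t6 1 s1 h 0 0 le_rfl hs1 hW hW).trans ?_
    apply mul_le_of_le_one_right hq0.le
    rw [Real.exp_le_one_iff]
    linarith
  have hg1 := hEU' 1 1 (zc (Yt T)) h 0 0 le_rfl le_rfl hW hW
  have hg0 := hEU' 1 0 (zc (Yt T)) h 0 0 le_rfl (by norm_num) hW hW
  have he3 := hE3 (zc (Yt T)) h
  set A := ∏ p ∈ Nat.primesBelow (zc (Yt T)), (1 - 1 / (p : ℝ))⁻¹ with hA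
  have hCorr : nm (GG 1 1 (zc (Yt T)) h 0 0) = A ^ 2 * Corr (Yt T) h := he3.2
  have hA1 : 1 ≤ A := by rw [← he3.1]; exact hg0.2.1
  have hco := Corr_nonneg (Yt T) h
  have s11 : nm (GT (el T) 1 1 (zc (Yt T)) h 0 0) ≤ (1 + q) * (A ^ 2 * Corr (Yt T) h) := by
    have a1 := (abs_le.1 (htau 1 le_rfl)).2
    have a2 := hg1.2.1
    rw [hCorr] at a1 a2
    nlinarith
  have s10 : (1 - q) * A ≤ nm (GT (el T) 1 0 (zc (Yt T)) h 0 0) := by
    have a1 := (abs_le.1 (htau 0 (by norm_num))).1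
    rw [he3.1] at a1
    nlinarith
  -- the rough part
  set ρ := nm (ro (zc (Yt T)) (Nt η T)) with hρ
  have hρ1 : 1 ≤ ρ := by
    have := RF_nm t8 1 0 h
    rwa [RF10] at this
  have hρ0 : 0 ≤ ρ := by linarith
  have hZr : Real.exp (Real.log T / La T ^ 2) ≤ (zc (Yt T) : ℝ) := by
    rw [← exp_Yt hL hlog]
    exact Nat.le_ceil _
  have hlz : Real.log T / La T ^ 2 ≤ Real.log (zc (Yt T)) := by
    rw [← exp_Yt hL hlog]
    exact log_zc
  have hlp : 0 < Real.log T / La T ^ 2 := by positivity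
  have hZ2 : 2 ≤ zc (Yt T) := by
    have a1 : (1 : ℝ) < zc (Yt T) := lt_of_lt_of_le (by rw [Real.one_lt_exp_iff]; exact hlp) hZr
    have : 1 < zc (Yt T) := by exact_mod_cast a1
    omega
  set δ' : ℝ := C₁ / (Real.log T / La T ^ 2) + C₁ * (1 + Real.exp (K * Real.sqrt (La T))) *
    Real.exp (-(c₁ * Real.sqrt (Real.log T / La T ^ 2))) with hδ'
  have hδ0 : 0 ≤ δ' := by positivity
  have hps' : ∀ a b : ℕ, zc (Yt T) ≤ a → a ≤ b →
      ‖∑ p ∈ (Finset.Ico a b).filter Nat.Prime, (p : ℂ) ^ (-((1 : ℂ) + (h : ℂ) * Complex.I))‖ ≤ δ' := by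
    intro a b ha hab
    refine (hps h (by linarith) a b (hZ2.trans ha) hab).trans ?_
    have a1 : Real.log T / La T ^ 2 ≤ Real.log a := by
      refine hlz.trans (Real.log_le_log (by exact_mod_cast (by omega : 0 < zc (Yt T))) (by exact_mod_cast ha))
    rw [abs_of_pos (by linarith : 0 < h)]
    apply add_le_add
    · apply div_le_div_of_nonneg_left hC₁.le hlp
      have : 0 < Real.log a := by linarith
      nlinarith
    · have a2 : Real.exp (-(c₁ * Real.sqrt (Real.log a))) ≤ Real.exp (-(c₁ * Real.sqrt (Real.log T / La T ^ 2))) := by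
        apply Real.exp_le_exp.2
        have := mul_le_mul_of_nonneg_left (Real.sqrt_le_sqrt a1) hc₁.le
        linarith
      gcongr
  have hfr := hFR (zc (Yt T)) (Nt η T) h δ' hZ2 t8 hδ0 hps'
  rw [← hρ] at hfr
  have hXT : Real.log (Nt η T) ≤ Real.log T := by
    apply Real.log_le_log (by exact_mod_cast (by omega : 0 < Nt η T))
    refine (Nat.floor_le (by positivity)).trans ?_
    calc T ^ (1 / 2 - 2 * η) ≤ T ^ (1 : ℝ) := Real.rpow_le_rpow_of_exponent_le t11 (by linarith)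
      _ = T := Real.rpow_one T
  have hX0 : 0 ≤ Real.log (Nt η T) := Real.log_nonneg (by exact_mod_cast t8)
  have r11 : nm (ro (zc (Yt T)) (Nt η T) * sh h (ro (zc (Yt T)) (Nt η T))) ≤ (1 + q) * ρ ^ 2 := by
    have a1 : (2 * Real.log (Nt η T) + 2) / (zc (Yt T) : ℝ) ≤ (2 * Real.log T + 2) / Real.exp (Real.log T / La T ^ 2) := by
      apply div_le_div₀ (by linarith) (by linarith) (Real.exp_pos _) hZr
    have a2 : ρ ^ 2 ≤ C₃ ^ 2 * La T ^ 4 := by
      calc ρ ^ 2 ≤ (C₃ * La T ^ 2) ^ 2 := pow_le_pow_left₀ hρ0 t7 2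
        _ = C₃ ^ 2 * La T ^ 4 := by ring
    have a3 : 4 * (δ' + (2 * Real.log (Nt η T) + 2) / (zc (Yt T) : ℝ)) * ρ ^ 2 ≤ q := by
      have a4 : 4 * (δ' + (2 * Real.log (Nt η T) + 2) / (zc (Yt T) : ℝ)) * ρ ^ 2 ≤
          4 * (δ' + (2 * Real.log T + 2) / Real.exp (Real.log T / La T ^ 2)) * (C₃ ^ 2 * La T ^ 4) := by
        gcongr
      refine a4.trans ?_
      have a5 : 4 * (δ' + (2 * Real.log T + 2) / Real.exp (Real.log T / La T ^ 2)) * (C₃ ^ 2 * La T ^ 4) =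
          4 * C₁ * C₃ ^ 2 * La T ^ 6 / Real.log T +
          4 * C₁ * C₃ ^ 2 * (1 + Real.exp (K * Real.sqrt (La T))) * La T ^ 4 *
            Real.exp (-(c₁ * Real.sqrt (Real.log T / La T ^ 2))) +
          4 * C₃ ^ 2 * La T ^ 4 * ((2 * Real.log T + 2) / Real.exp (Real.log T / La T ^ 2)) := by
        rw [hδ']
        field_simp
      rw [a5]
      linarith
    have a6 : 4 * (δ' + (2 * Real.log (Nt η T) + 2) / (zc (Yt T) : ℝ)) * ρ ^ 4 =
        (4 * (δ' + (2 * Real.log (Nt η T) + 2) / (zc (Yt T) : ℝ)) * ρ ^ 2) * ρ ^ 2 := by ring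
    rw [a6] at hfr
    have a7 := mul_le_mul_of_nonneg_right a3 (sq_nonneg ρ)
    linarith
  -- the mass
  have hdd : nm (dd η T) = nm (GT (el T) 1 0 (zc (Yt T)) h 0 0) * ρ := by
    rw [← FF_one η T h, (t1.2 1 0 h 0 0 le_rfl (by norm_num) hW hW).2.2.1, RF10]
  rw [div_le_iff₀ hlog] at t2
  have hAρ : A * ρ ≤ (1 + q) / (1 - q) * ((1 / 2 - 2 * η) * Real.log T) := by
    have hq' : 0 < 1 - q := by linarith
    rw [div_mul_eq_mul_div, le_div_iff₀ hq']
    have a1 := mul_le_mul_of_nonneg_right s10 hρ0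
    rw [← hdd] at a1
    linarith
  rw [← FF_two, (t1.2 1 1 h 0 0 le_rfl le_rfl hW hW).2.2.1, RF11]
  have hAρ0 : 0 ≤ A * ρ := by positivity
  calc nm (GT (el T) 1 1 (zc (Yt T)) h 0 0) * nm (ro (zc (Yt T)) (Nt η T) * sh h (ro (zc (Yt T)) (Nt η T)))
      ≤ ((1 + q) * (A ^ 2 * Corr (Yt T) h)) * ((1 + q) * ρ ^ 2) :=
        mul_le_mul s11 r11 (nm_nonneg _) (by positivity)
    _ = (1 + q) * (1 + q) * (A * ρ) ^ 2 * Corr (Yt T) h := by ring
    _ ≤ (1 + q) * (1 + q) * ((1 + q) / (1 - q) * ((1 / 2 - 2 * η) * Real.log T)) ^ 2 * Corr (Yt T) h := by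
        gcongr
    _ = ((1 + q) * (1 + q) * ((1 + q) / (1 - q)) ^ 2) * ((1 / 2 - 2 * η) * Real.log T) ^ 2 * Corr (Yt T) h := by ring
    _ ≤ (1 + ε) * ((1 / 2 - 2 * η) * Real.log T) ^ 2 * Corr (Yt T) h := by gcongr

end Pool.Agent.Q16.EW
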