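import Pool.Agent.Q16.EW.M2

set_option autoImplicit false

/-! # Project EW, jobs EW-NR (near points) and EW-INC (fourth moments of increments) -/

namespace Pool.Agent.Q16.EW

open Filter Topology MeasureTheory Finset
open Pool.Agent.Q80.EW

theorem lo_zero {a y : ℝ} (h : a ≤ y) {p : ℕ} (hp : zc y ≤ p) : lo a p = 0 := by
  unfold lo
  rw [if_neg]
  rintro ⟨_, h3⟩
  exact absurd (lt_of_lt_of_le h3 (zc_mono h)) (not_lt.2 hp)

theorem lo_abs (a : ℝ) (p : ℕ) : |lo a p| ≤ 1 := by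
  unfold lo
  split_ifs <;> simp

theorem lo_PV {a y : ℝ} (h : a ≤ y) (t : ℝ) : PV (zc y) (fun p => -(lo a p)) t = -(PP a t) := by
  unfold PV PP
  rw [← sum_neg_distrib, ← sum_subset (pb_sub h)]
  · apply sum_congr rfl
    intro p hp
    have : lo a p = 1 := by
      unfold lo
      rw [if_pos]
      rw [Nat.mem_primesBelow] at hp
      exact ⟨hp.2, hp.1⟩
    show ((-(lo a p) : ℝ) : ℂ) * _ = _
    rw [this]
    push_cast
    ring
  · intro p hp hn
    have : lo a p = 0 := by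
      unfold lo
      rw [if_neg]
      rintro ⟨h2, h3⟩
      exact hn (Nat.mem_primesBelow.2 ⟨h3, h2⟩)
    show ((-(lo a p) : ℝ) : ℂ) * _ = _
    rw [this]
    simp

theorem ind_PV {a b y u : ℝ} (hab : a ≤ b) (hb : b ≤ y) (t : ℝ) :
    PV (zc y) (fun p => u * ind a b p) t = (u : ℂ) * (PP b t - PP a t) := by
  have h1 : PP b t - PP a t = ∑ p ∈ Nat.primesBelow (zc y), (ind a b p : ℂ) *
      (p : ℂ) ^ (-((1 / 2 : ℂ) + (t : ℂ) * Complex.I)) := by
    unfold PP
    rw [blk hab hb]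
    apply sum_congr rfl
    intro p _
    rw [Complex.real_smul]
  rw [h1, mul_sum]
  unfold PV
  apply sum_congr rfl
  intro p _
  push_cast
  ring

/-- lower bound for the truncated exponential -/
theorem ev_et (hET : J_ET) : ∀ᶠ T : ℝ in atTop, ∀ w : ℂ, ‖w‖ ≤ 40 * La T →
    Real.exp (2 * w.re) ≤ 2 * ‖eT (el T) w‖ ^ 2 := by
  have hlq : Tendsto (fun T : ℝ => Real.exp (-(el T : ℝ))) atTop (𝓝 0) :=
    Real.tendsto_exp_neg_atTop_nhds_zero.comp (tendsto_natCast_atTop_atTop.comp el_top)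
  filter_upwards [el_top.eventually hET, hlq.eventually (ge_mem_nhds (show (0 : ℝ) < 1 / 2 by norm_num))] with T h1 h2 w hw
  have h3 := (abs_le.1 (h1 w (hw.trans (el_ge T)))).1
  have h4 := mul_le_mul_of_nonneg_right h2 (Real.exp_pos (2 * w.re)).le
  linarith

theorem ev_pow {η : ℝ} (hη : 0 < η) : ∀ᶠ T : ℝ in atTop, T ^ (1 - 2 * η) ≤ T := by
  filter_upwards [eventually_ge_atTop (1 : ℝ)] with T h1
  calc T ^ (1 - 2 * η) ≤ T ^ (1 : ℝ) := Real.rpow_le_rpow_of_exponent_le h1 (by linarith)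
    _ = T := Real.rpow_one T

/-- NR -/
theorem nr (hFF : J_FF) (hNEAR : J_NEAR) (hTAIL : J_TAIL) (hFR2 : J_FR2) (hRHO : J_RHO) (hET : J_ET) (hMERT : J_MERT)
    (hEU : J_EU) : J_NR := by
  obtain ⟨CE, -, hEU'⟩ := hEU
  obtain ⟨C₄, hC₄, hnear⟩ := hNEAR
  obtain ⟨C₃, hrho⟩ := hRHO
  have hMERT' := hMERT
  obtain ⟨C, hC⟩ := hMERT'
  refine ⟨16 * C₄ * (C₃ ^ 4 + 1) * Real.exp (2 * C), by positivity, ?_⟩
  intro η hη hη1
  filter_upwards [hFF η hη hη1, ev_tail hTAIL hMERT one_pos 0, hrho η hη hη1, ev_et hET, ev_pow hη,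
    ev_Nt hη1, Real.tendsto_log_atTop.eventually_ge_atTop 1, La_top.eventually_ge_atTop 1,
    eventually_ge_atTop (1 : ℝ)] with T t1 t2 t3 t4 t5 t6 t7 t8 t9 a b h β ha hab hb hh0 hh1 hhb
  have hT : 0 < T := by linarith
  have hlog : 0 < Real.log T := by linarith
  have hL : 0 < La T := by linarith
  have haY : a ≤ Yt T := hab.trans hb
  have hW := Wt_zero (zc (Yt T))
  have hWa : Wt (zc (Yt T)) (fun p => -(lo a p)) := by
    intro p
    refine ⟨?_, fun hp => ?_⟩
    · show |-(lo a p)| ≤ 2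
      rw [abs_neg]
      linarith [lo_abs a p]
    · show -(lo a p) = 0
      rw [lo_zero haY hp, neg_zero]
  obtain ⟨f1, f2, f3, f4⟩ := t1.2 1 1 h _ 0 le_rfl le_rfl hWa hW
  -- bound for the mass
  have g1 : nm (GT (el T) 1 1 (zc (Yt T)) h (fun p => -(lo a p)) 0) ≤
      2 * (C₄ * Real.exp (2 * Yt T - a + 2 * (b - a))) := by
    have a1 := (abs_le.1 (t2 1 1 h _ 0 le_rfl le_rfl hWa hW)).2
    have a2 := (hEU' 1 1 (zc (Yt T)) h _ 0 le_rfl le_rfl hWa hW).2.1
    have a3 := hnear (Yt T) a b h ha hab hb hh0 hh1 hhb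
    have a4 : 1 * Real.exp (-(40 * La T) + 0) ≤ 1 := by
      rw [one_mul, Real.exp_le_one_iff]
      linarith
    linarith
  have g2 : nm (RF η T 1 1 h) ≤ (C₃ ^ 4 + 1) * La T ^ 8 := by
    rw [RF11]
    refine (hFR2 _ _ _).trans ?_
    calc nm (ro (zc (Yt T)) (Nt η T)) ^ 4 ≤ (C₃ * La T ^ 2) ^ 4 := pow_le_pow_left₀ (nm_nonneg _) t3 4
      _ = C₃ ^ 4 * La T ^ 8 := by ring
      _ ≤ (C₃ ^ 4 + 1) * La T ^ 8 := by gcongr; linarith
  have g3 : nm (FF η T 1 1 h (fun p => -(lo a p)) 0) ≤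
      2 * (C₄ * Real.exp (2 * Yt T - a + 2 * (b - a))) * ((C₃ ^ 4 + 1) * La T ^ 8) := by
    rw [f3]
    exact mul_le_mul g1 g2 (nm_nonneg _) (by positivity)
  set f : ℝ → ℝ := fun t => ‖dp (FF η T 1 1 h (fun p => -(lo a p)) 0) t‖ ^ 2 with hf
  have g4 : ∫ t in T..(4 * T), f t ≤ 4 * T * nm (FF η T 1 1 h (fun p => -(lo a p)) 0) := by
    have a1 := (abs_le.1 (f4 T (4 * T) (by linarith))).2
    have a2 := mul_le_mul_of_nonneg_right t5 (nm_nonneg (FF η T 1 1 h (fun p => -(lo a p)) 0))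
    linarith
  have hfc : Continuous f := (dp_cont f1).norm.pow 2
  have hD := dp_cont t1.1
  have hgc : Continuous fun t => ‖Dp η T t‖ ^ 2 * ‖Dp η T (t + h)‖ ^ 2 :=
    (hD.norm.pow 2).mul ((hD.comp (continuous_id.add continuous_const)).norm.pow 2)
  have hS : MeasurableSet {t : ℝ | XX a t ≤ β ∧ ‖PP a t‖ ≤ 40 * La T} :=
    ((isClosed_le (XX_cont a) continuous_const).inter (isClosed_le (PP_cont a).norm continuous_const)).measurableSet
  have hpt : ∀ t, Set.indicator {t | XX a t ≤ β ∧ ‖PP a t‖ ≤ 40 * La T}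
      (fun t => ‖Dp η T t‖ ^ 2 * ‖Dp η T (t + h)‖ ^ 2) t ≤ 2 * Real.exp (2 * β + 2 * VV a) * f t := by
    intro t
    by_cases ht : t ∈ {t : ℝ | XX a t ≤ β ∧ ‖PP a t‖ ≤ 40 * La T}
    · rw [Set.indicator_of_mem ht]
      have b1 : (PP a t).re - VV a ≤ β := ht.1
      have b2 := t4 (-(PP a t)) (by rw [norm_neg]; exact ht.2)
      have b3 : f t = ‖Dp η T t‖ ^ 2 * ‖Dp η T (t + h)‖ ^ 2 * ‖eT (el T) (-(PP a t))‖ ^ 2 := by
        rw [hf]
        simp only
        rw [f2 t, lo_PV haY, PV_zero, eT_zero, mul_one, norm_mul, norm_mul, pow_one, pow_one]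
        ring
      rw [b3]
      have b4 : 1 ≤ 2 * Real.exp (2 * β + 2 * VV a) * ‖eT (el T) (-(PP a t))‖ ^ 2 := by
        have c1 : Real.exp (2 * β + 2 * VV a) * Real.exp (2 * (-(PP a t)).re) ≤
            Real.exp (2 * β + 2 * VV a) * (2 * ‖eT (el T) (-(PP a t))‖ ^ 2) :=
          mul_le_mul_of_nonneg_left b2 (Real.exp_pos _).le
        rw [← Real.exp_add] at c1
        have c2 : 1 ≤ Real.exp (2 * β + 2 * VV a + 2 * (-(PP a t)).re) := by
          apply Real.one_le_exp
          rw [Complex.neg_re]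
          linarith
        linarith
      have b5 : 0 ≤ ‖Dp η T t‖ ^ 2 * ‖Dp η T (t + h)‖ ^ 2 := by positivity
      have b6 := mul_le_mul_of_nonneg_left b4 b5
      linarith
    · rw [Set.indicator_of_notMem ht]
      positivity
  have hint := intervalIntegral.integral_mono_on (show T ≤ 4 * T by linarith) (ii_ind hgc hS T (4 * T))
    ((hfc.intervalIntegrable T (4 * T)).const_mul (2 * Real.exp (2 * β + 2 * VV a))) (fun t _ => hpt t)
  refine hint.trans ?_
  rw [intervalIntegral.integral_const_mul]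
  have hVV : VV a ≤ a + C := by linarith [(abs_le.1 (hC a ha)).2]
  have hexp : Real.exp (2 * Yt T) = Real.log T ^ 2 / La T ^ 4 := by
    rw [show 2 * Yt T = Yt T + Yt T by ring, Real.exp_add, exp_Yt hL hlog]
    field_simp
  calc 2 * Real.exp (2 * β + 2 * VV a) * ∫ t in T..(4 * T), f t
      ≤ 2 * Real.exp (2 * β + 2 * VV a) * (4 * T * (2 * (C₄ * Real.exp (2 * Yt T - a + 2 * (b - a))) *
          ((C₃ ^ 4 + 1) * La T ^ 8))) := by
        apply mul_le_mul_of_nonneg_left _ (by positivity)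
        refine g4.trans ?_
        apply mul_le_mul_of_nonneg_left g3 (by positivity)
    _ ≤ 2 * Real.exp (2 * β + 2 * (a + C)) * (4 * T * (2 * (C₄ * Real.exp (2 * Yt T - a + 2 * (b - a))) *
          ((C₃ ^ 4 + 1) * La T ^ 8))) := by gcongr
    _ = 16 * C₄ * (C₃ ^ 4 + 1) * Real.exp (2 * C) * T * Real.log T ^ 2 * La T ^ 4 *
          Real.exp (a + 2 * (b - a) + 2 * β) := by
        rw [show 2 * β + 2 * (a + C) = 2 * C + (2 * β + 2 * a) by ring, Real.exp_add,
          show 2 * Yt T - a + 2 * (b - a) = 2 * Yt T + (-a + 2 * (b - a)) by ring, Real.exp_add (2 * Yt T), hexp,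
          show a + 2 * (b - a) + 2 * β = (2 * β + 2 * a) + (-a + 2 * (b - a)) by ring, Real.exp_add (2 * β + 2 * a)]
        field_simp
        ring

theorem four_le (y : ℝ) : y ^ 4 ≤ 24 * (Real.exp y + Real.exp (-y)) := by
  have key : ∀ z : ℝ, 0 ≤ z → z ^ 4 ≤ 24 * Real.exp z := by
    intro z hz
    have := Real.pow_div_factorial_le_exp z hz 4
    simp only [Nat.factorial] at this
    norm_num at this
    linarith
  rcases le_total 0 y with h | h
  · have := key y h
    have := Real.exp_pos (-y)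
    linarith
  · have h1 := key (-y) (by linarith)
    have h2 := Real.exp_pos y
    have h3 : (-y) ^ 4 = y ^ 4 := by ring
    linarith

/-- INC -/
theorem inc (hFF : J_FF) (hFOUR : J_FOUR) (hTAIL : J_TAIL) (hEU : J_EU) (hET : J_ET) (hMASS : J_MASS)
    (hMERT : J_MERT) : J_INC := by
  obtain ⟨CE, -, hEU'⟩ := hEU
  obtain ⟨C₄, hC₄, hfour⟩ := hFOUR
  refine ⟨1000 * C₄, by positivity, ?_⟩
  intro η hη hη1
  have hm1 : ∀ᶠ T : ℝ in atTop, nm (dd η T) / Real.log T ≤ 1 :=
    (hMASS η hη hη1).eventually (ge_mem_nhds (by linarith))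
  filter_upwards [hFF η hη hη1, ev_tail hTAIL hMERT (show (0 : ℝ) < 1 / 2 by norm_num) 0, hm1, ev_et hET, ev_pow hη,
    ev_Nt hη1, Real.tendsto_log_atTop.eventually_ge_atTop 1, La_top.eventually_ge_atTop 1,
    eventually_ge_atTop (1 : ℝ)] with T t1 t2 t3 t4 t5 t6 t7 t8 t9 a b ha hab hb
  have hT : 0 < T := by linarith
  have hlog : 0 < Real.log T := by linarith
  have hL : 0 < La T := by linarith
  have hab' : a ≤ b := by linarith
  have hba : 1 ≤ b - a := by linarith
  have hW := Wt_zero (zc (Yt T))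
  rw [div_le_iff₀ hlog, one_mul] at t3
  set E : Set ℝ := {t | ‖PP a t‖ ≤ 40 * La T ∧ ‖PP b t‖ ≤ 40 * La T} with hE
  have hEm : MeasurableSet E :=
    ((isClosed_le (PP_cont a).norm continuous_const).inter
      (isClosed_le (PP_cont b).norm continuous_const)).measurableSet
  have hD := dp_cont t1.1
  have hX : Continuous fun t => XX b t - XX a t := (XX_cont b).sub (XX_cont a)
  set r := Real.sqrt (b - a) with hr
  have hr2 : r ^ 2 = b - a := Real.sq_sqrt (by linarith)
  have hr1 : 1 ≤ r := by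
    rw [hr, show (1 : ℝ) = Real.sqrt 1 by simp]
    exact Real.sqrt_le_sqrt hba
  -- one exponential
  have one : ∀ u : ℝ, |u| ≤ 1 / 2 → u ^ 2 * (b - a) ≤ 1 →
      ∫ t in T..(3 * T), Set.indicator E (fun t => ‖Dp η T t‖ ^ 2 * Real.exp (2 * u * (XX b t - XX a t))) t ≤
        18 * C₄ * T * Real.log T := by
    intro u hu hu2
    have hWu : Wt (zc (Yt T)) (fun p => u * ind a b p) := by
      intro p
      refine ⟨?_, fun hp => ?_⟩
      · show |u * ind a b p| ≤ 2
        rw [abs_mul, abs_of_nonneg (ind_nonneg _ _ _)]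
        have := mul_le_mul hu (ind_le a b p) (ind_nonneg _ _ _) (by norm_num)
        linarith
      · show u * ind a b p = 0
        rw [ind_zero hb hp, mul_zero]
    obtain ⟨f1, f2, f3, f4⟩ := t1.2 1 0 0 _ 0 le_rfl (by norm_num) hWu hW
    set f : ℝ → ℝ := fun t => ‖dp (FF η T 1 0 0 (fun p => u * ind a b p) 0) t‖ ^ 2 with hf
    have hfc : Continuous f := (dp_cont f1).norm.pow 2
    set V := VV b - VV a with hV
    -- the mass
    have a4 : 1 / 2 * Real.exp (-(40 * La T) + 0) ≤ 1 / 2 := by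
      have : Real.exp (-(40 * La T) + 0) ≤ 1 := by
        rw [Real.exp_le_one_iff]
        linarith
      linarith
    have g1 : nm (GT (el T) 1 0 (zc (Yt T)) 0 (fun p => u * ind a b p) 0) ≤
        3 / 2 * nm (GG 1 0 (zc (Yt T)) 0 (fun p => u * ind a b p) 0) := by
      have a1 := (abs_le.1 (t2 1 0 0 _ 0 le_rfl (by norm_num) hWu hW)).2
      have a2 := (hEU' 1 0 (zc (Yt T)) 0 _ 0 le_rfl (by norm_num) hWu hW).2.1
      linarith
    have g2 : nm (GG 1 0 (zc (Yt T)) 0 0 0) ≤ 2 * nm (GT (el T) 1 0 (zc (Yt T)) 0 0 0) := by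
      have a1 := (abs_le.1 (t2 1 0 0 0 0 le_rfl (by norm_num) hW hW)).1
      have a2 := (hEU' 1 0 (zc (Yt T)) 0 0 0 le_rfl (by norm_num) hW hW).2.1
      linarith
    have g3 := hfour (Yt T) a b u ha hab' hb (by linarith) hu2
    have hdd : nm (dd η T) = nm (GT (el T) 1 0 (zc (Yt T)) 0 0 0) * nm (RF η T 1 0 0) := by
      rw [← FF_one η T 0, (t1.2 1 0 0 0 0 le_rfl (by norm_num) hW hW).2.2.1]
    have hRF : 0 ≤ nm (RF η T 1 0 0) := nm_nonneg _
    have g4 : nm (FF η T 1 0 0 (fun p => u * ind a b p) 0) ≤ 3 * C₄ * Real.exp (2 * u * V) * Real.log T := by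
      rw [f3]
      calc nm (GT (el T) 1 0 (zc (Yt T)) 0 (fun p => u * ind a b p) 0) * nm (RF η T 1 0 0)
          ≤ (3 / 2 * (C₄ * Real.exp (2 * u * V) * (2 * nm (GT (el T) 1 0 (zc (Yt T)) 0 0 0)))) *
              nm (RF η T 1 0 0) := by
            apply mul_le_mul_of_nonneg_right _ hRF
            refine g1.trans ?_
            apply mul_le_mul_of_nonneg_left _ (by norm_num)
            refine g3.trans ?_
            apply mul_le_mul_of_nonneg_left g2 (by positivity)
        _ = 3 * C₄ * Real.exp (2 * u * V) * nm (dd η T) := by rw [hdd]; ring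
        _ ≤ 3 * C₄ * Real.exp (2 * u * V) * Real.log T := by gcongr
    have g5 : ∫ t in T..(3 * T), f t ≤ 3 * T * nm (FF η T 1 0 0 (fun p => u * ind a b p) 0) := by
      have a1 := (abs_le.1 (f4 T (3 * T) (by linarith))).2
      have a2 := mul_le_mul_of_nonneg_right t5 (nm_nonneg (FF η T 1 0 0 (fun p => u * ind a b p) 0))
      linarith
    have hpt : ∀ t, Set.indicator E (fun t => ‖Dp η T t‖ ^ 2 * Real.exp (2 * u * (XX b t - XX a t))) t ≤
        2 * Real.exp (-(2 * u * V)) * f t := by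
      intro t
      by_cases ht : t ∈ E
      · rw [Set.indicator_of_mem ht]
        have b0 : ‖(u : ℂ) * (PP b t - PP a t)‖ ≤ 40 * La T := by
          rw [norm_mul, Complex.norm_real, Real.norm_eq_abs]
          have c1 : ‖PP b t - PP a t‖ ≤ 80 * La T := (norm_sub_le _ _).trans (by linarith [ht.1, ht.2])
          calc |u| * ‖PP b t - PP a t‖ ≤ 1 / 2 * (80 * La T) := by gcongr
            _ = 40 * La T := by ring
        have b2 := t4 _ b0
        have b3 : f t = ‖Dp η T t‖ ^ 2 * ‖eT (el T) ((u : ℂ) * (PP b t - PP a t))‖ ^ 2 := by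
          rw [hf]
          simp only
          rw [f2 t, ind_PV hab' hb, PV_zero, eT_zero, mul_one, norm_mul, pow_one, pow_zero, mul_one]
          ring
        rw [b3]
        have b4 : Real.exp (2 * u * (XX b t - XX a t)) ≤
            Real.exp (-(2 * u * V)) * (2 * ‖eT (el T) ((u : ℂ) * (PP b t - PP a t))‖ ^ 2) := by
          have c1 := mul_le_mul_of_nonneg_left b2 (Real.exp_pos (-(2 * u * V))).le
          rw [← Real.exp_add] at c1
          refine le_trans (le_of_eq ?_) c1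
          congr 1
          rw [Complex.re_ofReal_mul, Complex.sub_re]
          unfold XX
          rw [hV]
          ring
        have b5 : 0 ≤ ‖Dp η T t‖ ^ 2 := by positivity
        have b6 := mul_le_mul_of_nonneg_left b4 b5
        linarith
      · rw [Set.indicator_of_notMem ht]
        positivity
    have hgc : Continuous fun t => ‖Dp η T t‖ ^ 2 * Real.exp (2 * u * (XX b t - XX a t)) :=
      (hD.norm.pow 2).mul (Real.continuous_exp.comp (continuous_const.mul hX))
    have hint := intervalIntegral.integral_mono_on (show T ≤ 3 * T by linarith) (ii_ind hgc hEm T (3 * T))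
      ((hfc.intervalIntegrable T (3 * T)).const_mul (2 * Real.exp (-(2 * u * V)))) (fun t _ => hpt t)
    refine hint.trans ?_
    rw [intervalIntegral.integral_const_mul]
    calc 2 * Real.exp (-(2 * u * V)) * ∫ t in T..(3 * T), f t
        ≤ 2 * Real.exp (-(2 * u * V)) * (3 * T * (3 * C₄ * Real.exp (2 * u * V) * Real.log T)) := by
          apply mul_le_mul_of_nonneg_left _ (by positivity)
          refine g5.trans ?_
          apply mul_le_mul_of_nonneg_left g4 (by positivity)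
      _ = 18 * C₄ * T * Real.log T * (Real.exp (-(2 * u * V)) * Real.exp (2 * u * V)) := by ring
      _ = 18 * C₄ * T * Real.log T := by rw [← Real.exp_add]; simp
  -- the two exponentials
  have hrp : 0 < r := by linarith
  have hu1 : |1 / (2 * r)| ≤ 1 / 2 := by
    rw [abs_of_pos (by positivity), div_le_div_iff₀ (by positivity) (by norm_num)]
    linarith
  have hu2 : (1 / (2 * r)) ^ 2 * (b - a) ≤ 1 := by
    rw [← hr2]
    have : (1 / (2 * r)) ^ 2 * r ^ 2 = 1 / 4 := by field_simp; norm_num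
    linarith
  have i1 := one (1 / (2 * r)) hu1 hu2
  have i2 := one (-(1 / (2 * r))) (by rwa [abs_neg]) (by rwa [neg_sq])
  have hc1 : ∀ u : ℝ, Continuous fun t => ‖Dp η T t‖ ^ 2 * Real.exp (2 * u * (XX b t - XX a t)) := fun u =>
    (hD.norm.pow 2).mul (Real.continuous_exp.comp (continuous_const.mul hX))
  have hc2 : Continuous fun t => ‖Dp η T t‖ ^ 2 * (XX b t - XX a t) ^ 4 := (hD.norm.pow 2).mul (hX.pow 4)
  have hpt : ∀ t, Set.indicator E (fun t => ‖Dp η T t‖ ^ 2 * (XX b t - XX a t) ^ 4) t ≤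
      24 * (b - a) ^ 2 * (Set.indicator E (fun t => ‖Dp η T t‖ ^ 2 *
        Real.exp (2 * (1 / (2 * r)) * (XX b t - XX a t))) t +
        Set.indicator E (fun t => ‖Dp η T t‖ ^ 2 * Real.exp (2 * (-(1 / (2 * r))) * (XX b t - XX a t))) t) := by
    intro t
    by_cases ht : t ∈ E
    · rw [Set.indicator_of_mem ht, Set.indicator_of_mem ht, Set.indicator_of_mem ht]
      have b1 := four_le (2 * (1 / (2 * r)) * (XX b t - XX a t))
      have b2 : (2 * (1 / (2 * r)) * (XX b t - XX a t)) ^ 4 * (b - a) ^ 2 = (XX b t - XX a t) ^ 4 := by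
        rw [← hr2]
        field_simp
      have b3 : -(2 * (1 / (2 * r)) * (XX b t - XX a t)) = 2 * (-(1 / (2 * r))) * (XX b t - XX a t) := by ring
      rw [b3] at b1
      rw [← b2]
      have b4 : 0 ≤ ‖Dp η T t‖ ^ 2 * (b - a) ^ 2 := by positivity
      have b5 := mul_le_mul_of_nonneg_left b1 b4
      linarith
    · rw [Set.indicator_of_notMem ht, Set.indicator_of_notMem ht, Set.indicator_of_notMem ht]
      simp
  have hint := intervalIntegral.integral_mono_on (show T ≤ 3 * T by linarith) (ii_ind hc2 hEm T (3 * T))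
    (((ii_ind (hc1 (1 / (2 * r))) hEm T (3 * T)).add (ii_ind (hc1 (-(1 / (2 * r)))) hEm T (3 * T))).const_mul
      (24 * (b - a) ^ 2)) (fun t _ => hpt t)
  refine hint.trans ?_
  rw [intervalIntegral.integral_const_mul, intervalIntegral.integral_add (ii_ind (hc1 _) hEm _ _)
    (ii_ind (hc1 _) hEm _ _)]
  calc 24 * (b - a) ^ 2 * (_ + _) ≤ 24 * (b - a) ^ 2 * (18 * C₄ * T * Real.log T + 18 * C₄ * T * Real.log T) := by
        apply mul_le_mul_of_nonneg_left (add_le_add i1 i2) (by positivity)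
    _ = 864 * (C₄ * T * Real.log T * (b - a) ^ 2) := by ring
    _ ≤ 1000 * (C₄ * T * Real.log T * (b - a) ^ 2) := by
        apply mul_le_mul_of_nonneg_right (by norm_num)
        positivity
    _ = 1000 * C₄ * T * Real.log T * (b - a) ^ 2 := by ring

end Pool.Agent.Q16.EW
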