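import Pool.Agent.Q16.EW.G

set_option autoImplicit false

/-! # Project EW, jobs EW-P1 and EW-P2: the law of the walk, one and two points -/

namespace Pool.Agent.Q16.EW

open Filter Topology MeasureTheory Finset
open Pool.Agent.Q80.EW

/-- the measure with density `1_S f / N` on `(a,b]` -/
noncomputable def Ms (a b N : ℝ) (S : Set ℝ) (f : ℝ → ℝ) : Measure ℝ :=
  (volume.restrict (Set.Ioc a b)).withDensity (fun t => ENNReal.ofReal (Set.indicator S f t / N))

section

variable {a b N : ℝ} {S : Set ℝ} {f : ℝ → ℝ}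

theorem Ms_int (hab : a ≤ b) (hN : 0 < N) (hS : MeasurableSet S) (hf : Continuous f) (hf0 : ∀ t, 0 ≤ f t) (φ : ℝ → ℝ) :
    ∫ t, φ t ∂(Ms a b N S f) = (∫ t in a..b, Set.indicator S (fun t => f t * φ t) t) / N := by
  unfold Ms
  rw [integral_withDensity_eq_integral_toReal_smul
    (((hf.measurable.indicator hS).div_const N).ennreal_ofReal) (Eventually.of_forall fun t => ENNReal.ofReal_lt_top),
    intervalIntegral.integral_of_le hab, ← integral_div]
  congr 1
  funext t
  have h0 : 0 ≤ Set.indicator S f t / N := div_nonneg (Set.indicator_nonneg (fun x _ => hf0 x) t) hN.le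
  rw [ENNReal.toReal_ofReal h0, smul_eq_mul]
  by_cases ht : t ∈ S
  · rw [Set.indicator_of_mem ht, Set.indicator_of_mem ht]; ring
  · rw [Set.indicator_of_notMem ht, Set.indicator_of_notMem ht]; ring

theorem Ms_fin (hS : MeasurableSet S) (hf : Continuous f) : IsFiniteMeasure (Ms a b N S f) := by
  unfold Ms
  apply isFiniteMeasure_withDensity_ofReal
  have h1 : IntegrableOn f (Set.Ioc a b) := (hf.integrableOn_Icc (a := a) (b := b)).mono_set Set.Ioc_subset_Icc_self
  exact ((h1.indicator hS).div_const N).hasFiniteIntegral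

theorem Ms_integrable (hS : MeasurableSet S) (hf : Continuous f) {φ : ℝ → ℝ} (hφ : Continuous φ) :
    Integrable φ (Ms a b N S f) := by
  have := Ms_fin (a := a) (b := b) (N := N) hS hf
  have h1 : Ms a b N S f (Set.Ioc a b)ᶜ = 0 := by
    unfold Ms
    rw [withDensity_apply _ measurableSet_Ioc.compl, Measure.restrict_restrict measurableSet_Ioc.compl,
      Set.compl_inter_self, Measure.restrict_empty, lintegral_zero_measure]
  have h2 : Ms a b N S f = (Ms a b N S f).restrict (Set.Ioc a b) := by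
    rw [Measure.restrict_eq_self_of_ae_mem]
    exact mem_ae_iff.2 h1
  rw [h2]
  exact (hφ.integrableOn_Icc (a := a) (b := b)).mono_set Set.Ioc_subset_Icc_self

theorem Ms_real (hab : a ≤ b) (hN : 0 < N) (hS : MeasurableSet S) (hf : Continuous f) (hf0 : ∀ t, 0 ≤ f t) {A : Set ℝ}
    (hA : MeasurableSet A) :
    (Ms a b N S f).real A = (∫ t in a..b, Set.indicator (S ∩ A) f t) / N := by
  rw [← integral_indicator_one hA, Ms_int hab hN hS hf hf0]
  congr 2
  funext t
  by_cases ht : t ∈ S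
  · by_cases hA : t ∈ A
    · rw [Set.indicator_of_mem ht, Set.indicator_of_mem hA, Set.indicator_of_mem (Set.mem_inter ht hA)]
      simp
    · rw [Set.indicator_of_mem ht, Set.indicator_of_notMem hA, Set.indicator_of_notMem (fun h => hA h.2)]
      simp
  · rw [Set.indicator_of_notMem ht, Set.indicator_of_notMem (fun h => ht h.1)]

end

/-- the mass is positive -/
theorem dd_one {η T : ℝ} (hN : 1 ≤ Nt η T) : dd η T 1 = 1 := by
  unfold dd
  rw [mul_one', ro_one' _ hN, mul_one, tr_apply]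
  have h1 : (1 : ℕ) ∈ Nat.smoothNumbers (zc (Yt T)) := by
    rw [Nat.mem_smoothNumbers]
    simp
  have h2 : sm (zc (Yt T)) 1 = 1 := by
    show (if (1 : ℕ) ∈ Nat.smoothNumbers (zc (Yt T)) then (1 : ℂ) else 0) = 1
    rw [if_pos h1]
  rw [h2]
  simp

theorem WK_set (T : ℝ) (m : ℕ) (b h : ℝ) : MeasurableSet {t : ℝ | WK T m b (t + h)} := by
  have : {t : ℝ | WK T m b (t + h)} = ⋂ k : Fin m, {t : ℝ | ∑ i ∈ Finset.Iic k, De T m i (t + h) ≤ b} := by
    ext t
    simp [WK]
  rw [this]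
  refine MeasurableSet.iInter fun k => IsClosed.measurableSet ?_
  refine isClosed_le (continuous_finsetSum _ fun i _ => ?_) continuous_const
  exact (De_cont T m i).comp (continuous_id.add continuous_const)

theorem ev_Nt {η : ℝ} (hη1 : η ≤ 1 / 100) : ∀ᶠ T : ℝ in atTop, 1 ≤ Nt η T := by
  filter_upwards [eventually_ge_atTop (1 : ℝ)] with T h1
  unfold Nt
  apply Nat.le_floor
  rw [Nat.cast_one]
  exact Real.one_le_rpow h1 (by linarith)

/-- P1 -/
theorem p1 (hFF : J_FF) (hG1 : J_G1) (hCL : J_CL) (hLV2 : J_LV2) : J_P1 := by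
  intro η m b hη hη1 hm
  obtain ⟨l1, l2, -, -, -⟩ := hLV2 m b hm
  have hff := hFF η hη hη1
  have hN := ev_Nt hη1
  let N : ℝ → ℝ := fun T => 2 * T * nm (dd η T)
  have hev : ∀ᶠ T : ℝ in atTop, 0 < T ∧ FS ⌊T ^ (1 / 2 - η)⌋₊ (dd η T) ∧ 0 < N T := by
    filter_upwards [hff, hN, eventually_gt_atTop (0 : ℝ)] with T h1 h2 h3
    refine ⟨h3, h1.1, ?_⟩
    have := nm_ge_one h1.1 (dd_one h2)
    show 0 < 2 * T * nm (dd η T)
    positivity
  have hNE : ∀ T, MeasurableSet {t : ℝ | NE T m t} := by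
    intro T
    have := (NE_closed T m 0).measurableSet
    simpa using this
  have key := hCL ℝ ℝ (Fin m) atTop (fun T => Ms T (3 * T) (N T) {t | NE T m t} (fun t => ‖Dp η T t‖ ^ 2))
    (fun T i t => De T m i t) m hm ?_ ?_ ?_ {x : Fin m → ℝ | ∀ k : Fin m, ∑ i ∈ Finset.Iic k, x i ≤ b} l1 l2
  · refine Tendsto.congr' ?_ key
    filter_upwards [hev] with T hT
    obtain ⟨h1, h2, h3⟩ := hT
    have hc : Continuous fun t => ‖Dp η T t‖ ^ 2 := (dp_cont h2).norm.pow 2
    have hA : MeasurableSet {t : ℝ | WK T m b t} := by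
      have := WK_set T m b 0
      simpa using this
    show (Ms T (3 * T) (N T) {t | NE T m t} (fun t => ‖Dp η T t‖ ^ 2)).real {t : ℝ | WK T m b t} = _
    rw [Ms_real (by linarith) h3 (hNE T) hc (fun t => by positivity) hA]
    rfl
  · filter_upwards [hev] with T hT
    exact Ms_fin (hNE T) ((dp_cont hT.2.1).norm.pow 2)
  · exact Eventually.of_forall fun T j => (De_cont T m j).measurable
  · intro u
    constructor
    · filter_upwards [hev] with T hT
      refine Ms_integrable (hNE T) ((dp_cont hT.2.1).norm.pow 2) ?_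
      exact Real.continuous_exp.comp (continuous_finsetSum _ fun i _ => continuous_const.mul (De_cont T m i))
    · refine Tendsto.congr' ?_ (hG1 η m u hη hη1 hm)
      filter_upwards [hev] with T hT
      obtain ⟨h1, h2, h3⟩ := hT
      have hc : Continuous fun t => ‖Dp η T t‖ ^ 2 := (dp_cont h2).norm.pow 2
      rw [Ms_int (by linarith) h3 (hNE T) hc (fun t => by positivity)]

theorem lK_ev {K : ℝ} {p : ℝ × ℝ → Prop} : (∀ᶠ x in lK K, p x) ↔
    ∀ᶠ T : ℝ in atTop, ∀ h : ℝ, 1 ≤ h → h ≤ Real.exp (K * Real.sqrt (La T)) → p (T, h) := by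
  unfold lK
  rw [Filter.eventually_inf_principal, Filter.eventually_comap]
  constructor
  · intro h
    filter_upwards [h] with T hT h h1 h2
    exact hT (T, h) rfl ⟨h1, h2⟩
  · intro h
    filter_upwards [h] with T hT x hx hx2
    obtain ⟨a, b⟩ := x
    simp only at hx
    subst hx
    exact hT b hx2.1 hx2.2

theorem lK_of {K : ℝ} {p : ℝ → Prop} (h : ∀ᶠ T : ℝ in atTop, p T) : ∀ᶠ x in lK K, p x.1 := by
  rw [lK_ev]
  filter_upwards [h] with T hT h _ _
  exact hT

instance (K : ℝ) : (lK K).IsCountablyGenerated := by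
  unfold lK
  infer_instance

/-- P2 -/
theorem p2 (hFF : J_FF) (hG2 : J_G2) (hCL : J_CL) (hLV2 : J_LV2) (hM2 : J_M2) : J_P2 := by
  intro η m b K ε hη hη1 hm hε
  obtain ⟨-, -, l3, l4, l5⟩ := hLV2 m b hm
  have hff := hFF η hη hη1
  have hN := ev_Nt hη1
  let N : ℝ × ℝ → ℝ := fun x => 2 * x.1 * nm (dd η x.1 * sh x.2 (dd η x.1))
  have hev0 : ∀ᶠ T : ℝ in atTop, ∀ h : ℝ, 0 < T ∧ FS ⌊T ^ (1 / 2 - η)⌋₊ (dd η T) ∧ 0 < N (T, h) := by
    filter_upwards [hff, hN, eventually_gt_atTop (0 : ℝ)] with T h1 h2 h3 h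
    refine ⟨h3, h1.1, ?_⟩
    have h4 : (dd η T * sh h (dd η T)) 1 = 1 := by rw [mul_one', sh_one', dd_one h2, one_mul]
    have := nm_ge_one (FS_mul h1.1 (FS_sh h h1.1)) h4
    show 0 < 2 * T * nm (dd η T * sh h (dd η T))
    positivity
  have hev : ∀ᶠ x in lK K, 0 < x.1 ∧ FS ⌊x.1 ^ (1 / 2 - η)⌋₊ (dd η x.1) ∧ 0 < N x := by
    rw [lK_ev]
    filter_upwards [hev0] with T hT h _ _
    exact hT h
  have hNE : ∀ T h, MeasurableSet {t : ℝ | NE T m t ∧ NE T m (t + h)} := fun T h => (Gs_closed T m h).measurableSet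
  have hco : ∀ (T h : ℝ), FS ⌊T ^ (1 / 2 - η)⌋₊ (dd η T) →
      Continuous fun t => ‖Dp η T t‖ ^ 2 * ‖Dp η T (t + h)‖ ^ 2 := fun T h hh =>
    ((dp_cont hh).norm.pow 2).mul (((dp_cont hh).comp (continuous_id.add continuous_const)).norm.pow 2)
  have key := hCL (ℝ × ℝ) ℝ (Fin m ⊕ Fin m) (lK K) (fun x => Ms x.1 (3 * x.1) (N x)
      {t | NE x.1 m t ∧ NE x.1 m (t + x.2)} (fun t => ‖Dp η x.1 t‖ ^ 2 * ‖Dp η x.1 (t + x.2)‖ ^ 2))
    (fun x j t => Sum.elim (fun i => De x.1 m i t) (fun i => De x.1 m i (t + x.2)) j) m hm ?_ ?_ ?_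
    {x : Fin m ⊕ Fin m → ℝ |
    (∀ k : Fin m, ∑ i ∈ Finset.Iic k, x (Sum.inl i) ≤ b) ∧
    ∀ k : Fin m, ∑ i ∈ Finset.Iic k, x (Sum.inr i) ≤ b} l3 l4
  · rw [l5] at key
    set G := gam m b ^ 2 with hG
    have hG0 : 0 ≤ G := by positivity
    have h1 : ∀ᶠ x in lK K, _ := key.eventually (ge_mem_nhds (show G < G + ε / 2 by linarith))
    have h2 := h1.and hev
    rw [lK_ev] at h2
    set ε' : ℝ := (ε / 2) / (G + ε / 2) with hε'
    have hε'0 : 0 < ε' := by positivity
    have h3 := hM2 η K ε' hη hη1 hε'0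
    filter_upwards [h2, h3] with T hT hT' h hh1 hh2
    obtain ⟨h4, h5, h6, h7⟩ := hT h hh1 hh2
    have h8 := hT' h hh1 hh2
    have hA : MeasurableSet {t : ℝ | WK T m b t ∧ WK T m b (t + h)} := by
      have a1 := WK_set T m b 0
      simp only [add_zero] at a1
      exact a1.inter (WK_set T m b h)
    have h4' : (Ms T (3 * T) (N (T, h)) {t | NE T m t ∧ NE T m (t + h)}
        (fun t => ‖Dp η T t‖ ^ 2 * ‖Dp η T (t + h)‖ ^ 2)).real {t : ℝ | WK T m b t ∧ WK T m b (t + h)} ≤
        G + ε / 2 := h4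
    rw [Ms_real (by linarith) h7 (hNE T h) (hco T h h6) (fun t => by positivity) hA, div_le_iff₀ h7] at h4'
    have e2 : {t : ℝ | NE T m t ∧ NE T m (t + h)} ∩ {t : ℝ | WK T m b t ∧ WK T m b (t + h)} =
        {t | (NE T m t ∧ WK T m b t) ∧ (NE T m (t + h) ∧ WK T m b (t + h))} := by
      ext t
      simp only [Set.mem_inter_iff, Set.mem_ofPred_eq]
      tauto
    rw [e2] at h4'
    refine h4'.trans ?_
    show (G + ε / 2) * (2 * T * nm (dd η T * sh h (dd η T))) ≤ _
    have h9 : (G + ε / 2) * (2 * T * nm (dd η T * sh h (dd η T))) ≤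
        (G + ε / 2) * (2 * T * ((1 + ε') * ((1 / 2 - 2 * η) * Real.log T) ^ 2 * Corr (Yt T) h)) := by gcongr
    refine h9.trans (le_of_eq ?_)
    have h10 : (G + ε / 2) * (1 + ε') = G + ε := by
      rw [hε']
      field_simp
      ring
    linear_combination (2 * T * ((1 / 2 - 2 * η) * Real.log T) ^ 2 * Corr (Yt T) h) * h10
  · filter_upwards [hev] with x hx
    exact Ms_fin (hNE x.1 x.2) (hco _ _ hx.2.1)
  · refine Eventually.of_forall fun x j => ?_
    rcases j with i | i
    · exact (De_cont x.1 m i).measurable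
    · exact ((De_cont x.1 m i).comp (continuous_id.add continuous_const)).measurable
  · intro u
    have hs : ∀ (x : ℝ × ℝ) (t : ℝ), ∑ j, u j * Sum.elim (fun i => De x.1 m i t) (fun i => De x.1 m i (t + x.2)) j =
        ∑ i, u (Sum.inl i) * De x.1 m i t + ∑ i, u (Sum.inr i) * De x.1 m i (t + x.2) := by
      intro x t
      rw [Fintype.sum_sum_type]
      rfl
    constructor
    · filter_upwards [hev] with x hx
      refine Ms_integrable (hNE x.1 x.2) (hco _ _ hx.2.1) ?_
      simp_rw [hs]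
      refine Real.continuous_exp.comp (Continuous.add ?_ ?_)
      · exact continuous_finsetSum _ fun i _ => continuous_const.mul (De_cont x.1 m i)
      · exact continuous_finsetSum _ fun i _ => continuous_const.mul
          ((De_cont x.1 m i).comp (continuous_id.add continuous_const))
    · have h1 := hG2 η m (fun i => u (Sum.inl i)) (fun i => u (Sum.inr i)) K hη hη1 hm
      rw [Fintype.sum_sum_type]
      refine Tendsto.congr' ?_ h1
      filter_upwards [hev] with x hx
      rw [Ms_int (by linarith [hx.1]) hx.2.2 (hNE x.1 x.2) (hco _ _ hx.2.1) (fun t => by positivity)]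
      simp_rw [hs]
      rfl

end Pool.Agent.Q16.EW
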